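import Mathlib

set_option autoImplicit false

namespace Pool.H46VL

/-- the sequence `x 0, y 0, x 1, y 1, …` -/
def weave (x y : ℕ → ℕ) (n : ℕ) : ℕ := if n % 2 = 0 then x (n / 2) else y (n / 2)

/-- ONE has a winning strategy in the game with boards indexed by `B` and payoff set `A`. -/
def OneWins (B : Type) (A : Set (ℕ → ℕ)) : Prop :=
  ∃ s : List (B → ℕ) → (B → ℕ), ∀ g : ℕ → B → ℕ,
    ∃ b : B, weave (fun n => s ((List.range n).map g) b) (fun n => g n b) ∈ A

/-- TWO has a winning strategy in the game with boards indexed by `B` and payoff set `A`. -/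
def TwoWins (B : Type) (A : Set (ℕ → ℕ)) : Prop :=
  ∃ t : List (B → ℕ) → (B → ℕ), ∀ f : ℕ → B → ℕ,
    ∀ b : B, weave (fun n => f n b) (fun n => t ((List.range (n + 1)).map f) b) ∉ A

/-- the game is undetermined -/
def Undetermined (B : Type) (A : Set (ℕ → ℕ)) : Prop := ¬ OneWins B A ∧ ¬ TwoWins B A

theorem weave_inj {x y x' y' : ℕ → ℕ} (h : weave x y = weave x' y') : x = x' ∧ y = y' := by
  constructor
  · funext n
    have := congrFun h (2 * n)
    simpa [weave] using this
  · funext n
    have := congrFun h (2 * n + 1)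
    have e : (2 * n + 1) / 2 = n := by omega
    simpa [weave, e] using this

theorem OneWins.mono {B B' : Type} {A : Set (ℕ → ℕ)} (i : B' → B) (hi : Function.Injective i)
    (h : OneWins B' A) : OneWins B A := by
  classical
  obtain ⟨s, hs⟩ := h
  refine ⟨fun l b => if hb : ∃ b', i b' = b then s (l.map (fun c => c ∘ i)) hb.choose else 0, ?_⟩
  intro g
  obtain ⟨b', hb'⟩ := hs (fun n => g n ∘ i)
  refine ⟨i b', ?_⟩
  have hex : ∃ b'', i b'' = i b' := ⟨b', rfl⟩
  have h1 : hex.choose = b' := hi hex.choose_spec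
  simp only [dif_pos hex, h1, List.map_map]
  exact hb'

end Pool.H46VL
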