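import Mathlib

set_option autoImplicit false

namespace Pool.H46VL

/-- First-order formulas of the language `{∈, =}` of set theory; variables are de Bruijn indices. -/
inductive Fml : Type
  | mem (i j : ℕ) : Fml
  | eq (i j : ℕ) : Fml
  | neg (φ : Fml) : Fml
  | and (φ ψ : Fml) : Fml
  | ex (φ : Fml) : Fml
  deriving Countable

/-- `Sat M φ v`: the formula `φ` holds in the structure `(M, ∈)` under the assignment `v`
(variable `i` is interpreted by the `i`-th entry of `v`). -/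
def Sat (M : Set ZFSet.{0}) : Fml → List ZFSet.{0} → Prop
  | .mem i j, v => ∃ x ∈ v[i]?, ∃ y ∈ v[j]?, x ∈ y
  | .eq i j, v => ∃ x ∈ v[i]?, ∃ y ∈ v[j]?, x = y
  | .neg φ, v => ¬ Sat M φ v
  | .and φ ψ, v => Sat M φ v ∧ Sat M ψ v
  | .ex φ, v => ∃ x ∈ M, Sat M φ (x :: v)

/-- `y` is a subset of `M` which is first-order definable with parameters over `(M, ∈)`. -/
def DefSub (M : Set ZFSet.{0}) (y : ZFSet.{0}) : Prop :=
  ∃ (φ : Fml) (p : List ZFSet.{0}), (∀ x ∈ p, x ∈ M) ∧ ∀ z, z ∈ y ↔ z ∈ M ∧ Sat M φ (z :: p)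

/-- Gödel's constructible hierarchy `L_α = ⋃_{β < α} Def(L_β)`. -/
def L (α : Ordinal.{0}) : Set ZFSet.{0} :=
  {y | ∃ β : Set.Iio α, DefSub (L β.1) y}
termination_by α
decreasing_by exact β.2

/-- The axiom of constructibility `V = L`. -/
def VeqL : Prop := ∀ x : ZFSet.{0}, ∃ α : Ordinal.{0}, x ∈ L α

theorem mem_L {α : Ordinal.{0}} {y : ZFSet.{0}} : y ∈ L α ↔ ∃ β < α, DefSub (L β) y := by
  rw [L]
  constructor
  · rintro ⟨β, hβ⟩
    exact ⟨β.1, β.2, hβ⟩
  · rintro ⟨β, hβ, h⟩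
    exact ⟨⟨β, hβ⟩, h⟩

theorem L_mono {α β : Ordinal.{0}} (h : α ≤ β) : L α ⊆ L β := by
  intro y hy
  rw [mem_L] at hy ⊢
  obtain ⟨γ, hγ, h'⟩ := hy
  exact ⟨γ, lt_of_lt_of_le hγ h, h'⟩

theorem DefSub.sub {M : Set ZFSet.{0}} {y z : ZFSet.{0}} (h : DefSub M y) (hz : z ∈ y) : z ∈ M := by
  obtain ⟨φ, p, _, h⟩ := h
  exact ((h z).1 hz).1

theorem L_trans {α : Ordinal.{0}} {y z : ZFSet.{0}} (hy : y ∈ L α) (hz : z ∈ y) : z ∈ L α := by
  rw [mem_L] at hy
  obtain ⟨β, hβ, h⟩ := hy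
  exact L_mono hβ.le (h.sub hz)

/-- definable subsets of a small class form a small class -/
theorem small_defSub (M : Set ZFSet.{0}) [Small.{0} M] : Small.{0} {y | DefSub M y} := by
  classical
  have h1 : ∀ y : {y | DefSub M y}, ∃ q : Fml × List M,
      ∀ z, z ∈ y.1 ↔ z ∈ M ∧ Sat M q.1 (z :: q.2.map Subtype.val) := by
    rintro ⟨y, φ, p, hp, h⟩
    refine ⟨⟨φ, p.attach.map fun x => ⟨x.1, hp x.1 x.2⟩⟩, ?_⟩
    intro z
    have : (List.map Subtype.val (List.map (fun x : {x // x ∈ p} => (⟨x.1, hp x.1 x.2⟩ : M)) p.attach)) = p := by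
      rw [List.map_map]
      exact List.attach_map_subtype_val p
    simpa [this] using h z
  choose f hf using h1
  have hinj : Function.Injective f := by
    intro y y' hyy
    apply Subtype.ext
    ext z
    rw [hf y z, hf y' z, hyy]
  haveI : Small.{0} (List M) := by
    obtain ⟨S, ⟨e⟩⟩ := (inferInstance : Small.{0} M)
    exact ⟨List S, ⟨e.listEquivOfEquiv⟩⟩
  exact small_of_injective hinj

theorem small_L (α : Ordinal.{0}) : Small.{0} (L α) := by
  induction α using Ordinal.induction with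
  | h α ih =>
    have h1 : L α = ⋃ β : Set.Iio α, {y | DefSub (L β.1) y} := by
      ext y
      rw [mem_L]
      simp
    rw [h1]
    haveI : ∀ β : Set.Iio α, Small.{0} {y | DefSub (L β.1) y} := by
      intro β
      haveI := ih β.1 β.2
      exact small_defSub _
    exact small_iUnion _

/-- `L_α` as a set. -/
noncomputable def Lz (α : Ordinal.{0}) : ZFSet.{0} :=
  haveI := small_L α
  ZFSet.range (fun x : L α => (x : ZFSet.{0}))

theorem mem_Lz {α : Ordinal.{0}} {z : ZFSet.{0}} : z ∈ Lz α ↔ z ∈ L α := by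
  haveI := small_L α
  rw [Lz, ZFSet.mem_range]
  constructor
  · rintro ⟨x, rfl⟩
    exact x.2
  · intro h
    exact ⟨⟨z, h⟩, rfl⟩

theorem Lz_mem {α β : Ordinal.{0}} (h : α < β) : Lz α ∈ L β := by
  rw [mem_L]
  refine ⟨α, h, .eq 0 0, [], by simp, ?_⟩
  intro z
  rw [mem_Lz]
  simp [Sat]

theorem Lz_mem_iff {α β : Ordinal.{0}} : Lz α ∈ L β ↔ α < β := by
  refine ⟨fun h => ?_, Lz_mem⟩
  by_contra hc
  have h1 := L_mono (not_lt.1 hc) h
  rw [← mem_Lz] at h1
  exact ZFSet.mem_irrefl _ h1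

theorem Lz_inj {α β : Ordinal.{0}} (h : Lz α = Lz β) : α = β := by
  rcases lt_trichotomy α β with h1 | h1 | h1
  · have := (Lz_mem_iff (α := α) (β := β)).2 h1
    rw [h] at this
    exact absurd ((Lz_mem_iff).1 this) (lt_irrefl _)
  · exact h1
  · have := (Lz_mem_iff (α := β) (β := α)).2 h1
    rw [← h] at this
    exact absurd ((Lz_mem_iff).1 this) (lt_irrefl _)

end Pool.H46VL
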