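import Mathlib
import Pool.Agent.H46.VL.Basic

set_option autoImplicit false

namespace Pool.H46VL

universe u v

/-- forests: finite lists of trees, labelled by elements of `A` and by formulas -/
inductive Fo (A : Type u) : Type u
  | nil : Fo A
  | cons (a : A) (φ : Fml) (ch sib : Fo A) : Fo A
  deriving Countable

namespace Fo

variable {A : Type u} {B : Type v}

/-- all labels satisfy `p` -/
def All (p : A → Prop) : Fo A → Prop
  | .nil => True
  | .cons a _ ch sib => p a ∧ All p ch ∧ All p sib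

def map (f : A → B) : Fo A → Fo B
  | .nil => .nil
  | .cons a φ ch sib => .cons (f a) φ (map f ch) (map f sib)

theorem All.mono {p q : A → Prop} (h : ∀ a, p a → q a) : ∀ {F : Fo A}, F.All p → F.All q
  | .nil, _ => trivial
  | .cons a _ ch sib, hF => ⟨h a hF.1, All.mono h hF.2.1, All.mono h hF.2.2⟩

theorem All.and {p q : A → Prop} : ∀ {F : Fo A}, F.All p → F.All q → F.All (fun a => p a ∧ q a)
  | .nil, _, _ => trivial
  | .cons a _ ch sib, hF, hG => ⟨⟨hF.1, hG.1⟩, All.and hF.2.1 hG.2.1, All.and hF.2.2 hG.2.2⟩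

theorem all_map {f : A → B} {p : B → Prop} : ∀ {F : Fo A}, (F.map f).All p ↔ F.All (fun a => p (f a))
  | .nil => Iff.rfl
  | .cons a _ ch sib => by
      simp only [map, All, all_map (F := ch), all_map (F := sib)]

theorem map_congr {f g : A → B} {p : A → Prop} (h : ∀ a, p a → f a = g a) :
    ∀ {F : Fo A}, F.All p → F.map f = F.map g
  | .nil, _ => rfl
  | .cons a _ ch sib, hF => by
      simp only [map]
      rw [h a hF.1, map_congr h hF.2.1, map_congr h hF.2.2]

theorem map_map {C : Type*} (f : A → B) (g : B → C) : ∀ (F : Fo A), (F.map f).map g = F.map (fun a => g (f a))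
  | .nil => rfl
  | .cons a _ ch sib => by
      simp only [map, map_map f g ch, map_map f g sib]

theorem map_id' {p : A → Prop} {f : A → A} (h : ∀ a, p a → f a = a) :
    ∀ {F : Fo A}, F.All p → F.map f = F
  | .nil, _ => rfl
  | .cons a _ ch sib, hF => by
      simp only [map]
      rw [h a hF.1, map_id' h hF.2.1, map_id' h hF.2.2]

/-- the forests with labels in a countable set form a countable set -/
theorem countable_all {s : Set A} (hs : s.Countable) : {F : Fo A | F.All (· ∈ s)}.Countable := by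
  haveI : Countable s := hs.to_subtype
  have h1 : {F : Fo A | F.All (· ∈ s)} ⊆ Set.range (fun F : Fo s => F.map Subtype.val) := by
    intro F hF
    induction F with
    | nil => exact ⟨.nil, rfl⟩
    | cons a φ ch sib ih1 ih2 =>
      obtain ⟨ha, hc, hs'⟩ := hF
      obtain ⟨c, hc'⟩ := ih1 hc
      obtain ⟨d, hd'⟩ := ih2 hs'
      refine ⟨.cons ⟨a, ha⟩ φ c d, ?_⟩
      simp only [map] at hc' hd' ⊢
      rw [hc', hd']
  exact (Set.countable_range _).mono h1

end Fo

/-- good forests: the labels below a node are smaller than the label of the node -/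
def Fo.Good : Fo Ordinal.{0} → Prop
  | .nil => True
  | .cons α _ ch sib => ch.Good ∧ ch.All (· < α) ∧ sib.Good

/-- a tree: a label (ordinal), a formula and a forest of parameters -/
structure Tr where
  lab : Ordinal.{0}
  fml : Fml
  ch : Fo Ordinal.{0}

/-- the list of sets denoted by a forest -/
noncomputable def denL : Fo Ordinal.{0} → List ZFSet.{0}
  | .nil => []
  | .cons α φ ch sib =>
      (ZFSet.sep (fun z => Sat (L α) φ (z :: denL ch)) (Lz α)) :: denL sib

namespace Tr

/-- the set denoted by a tree -/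
noncomputable def den (t : Tr) : ZFSet.{0} :=
  ZFSet.sep (fun z => Sat (L t.lab) t.fml (z :: denL t.ch)) (Lz t.lab)

def Good (t : Tr) : Prop := t.ch.Good ∧ t.ch.All (· < t.lab)

def All (p : Ordinal.{0} → Prop) (t : Tr) : Prop := p t.lab ∧ t.ch.All p

def cons (t : Tr) (F : Fo Ordinal.{0}) : Fo Ordinal.{0} := .cons t.lab t.fml t.ch F

def map (f : Ordinal.{0} → Ordinal.{0}) (t : Tr) : Tr := ⟨f t.lab, t.fml, t.ch.map f⟩

theorem denL_cons (t : Tr) (F : Fo Ordinal.{0}) : denL (t.cons F) = t.den :: denL F := rfl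

theorem good_cons {t : Tr} {F : Fo Ordinal.{0}} : (t.cons F).Good ↔ t.Good ∧ F.Good := by
  simp only [cons, Fo.Good, Good]
  tauto

theorem all_cons {p : Ordinal.{0} → Prop} {t : Tr} {F : Fo Ordinal.{0}} :
    (t.cons F).All p ↔ t.All p ∧ F.All p := by
  simp only [cons, Fo.All, All]
  tauto

theorem mem_den {t : Tr} {z : ZFSet.{0}} :
    z ∈ t.den ↔ z ∈ L t.lab ∧ Sat (L t.lab) t.fml (z :: denL t.ch) := by
  rw [den, ZFSet.mem_sep, mem_Lz]

end Tr

theorem denL_mem_L : ∀ {F : Fo Ordinal.{0}} {α : Ordinal.{0}}, F.Good → F.All (· < α) →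
    ∀ x ∈ denL F, x ∈ L α
  | .nil, α, _, _ => by simp [denL]
  | .cons a φ ch sib, α, hg, ha => by
      intro x hx
      rw [denL, List.mem_cons] at hx
      rcases hx with rfl | hx
      · rw [mem_L]
        refine ⟨a, ha.1, φ, denL ch, denL_mem_L hg.1 hg.2.1, ?_⟩
        intro z
        rw [ZFSet.mem_sep, mem_Lz]
      · exact denL_mem_L hg.2.2 ha.2.2 x hx

theorem Tr.den_mem_L {t : Tr} (hg : t.Good) {α : Ordinal.{0}} (h : t.lab < α) : t.den ∈ L α := by
  rw [mem_L]
  refine ⟨t.lab, h, t.fml, denL t.ch, denL_mem_L hg.1 hg.2, ?_⟩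
  intro z
  rw [Tr.mem_den]

theorem Tr.Good.all_lt {t : Tr} (hg : t.Good) {α : Ordinal.{0}} (h : t.lab < α) : t.All (· < α) :=
  ⟨h, hg.2.mono fun _ hb => hb.trans h⟩

theorem exists_forest {α : Ordinal.{0}}
    (ih : ∀ x ∈ L α, ∃ t : Tr, t.Good ∧ t.lab < α ∧ t.den = x) :
    ∀ p : List ZFSet.{0}, (∀ x ∈ p, x ∈ L α) → ∃ F : Fo Ordinal.{0}, F.Good ∧ F.All (· < α) ∧ denL F = p
  | [], _ => ⟨.nil, trivial, trivial, rfl⟩
  | x :: p, h => by
      obtain ⟨F, hF1, hF2, hF3⟩ := exists_forest ih p (fun y hy => h y (List.mem_cons_of_mem _ hy))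
      obtain ⟨t, ht1, ht2, ht3⟩ := ih x (h x List.mem_cons_self)
      refine ⟨t.cons F, Tr.good_cons.2 ⟨ht1, hF1⟩, Tr.all_cons.2 ⟨ht1.all_lt ht2, hF2⟩, ?_⟩
      rw [Tr.denL_cons, ht3, hF3]

theorem exists_tr {α : Ordinal.{0}} : ∀ x ∈ L α, ∃ t : Tr, t.Good ∧ t.lab < α ∧ t.den = x := by
  induction α using WellFoundedLT.induction with
  | ind α ih =>
    intro x hx
    rw [mem_L] at hx
    obtain ⟨β, hβ, φ, p, hp, h⟩ := hx
    obtain ⟨F, hF1, hF2, hF3⟩ := exists_forest (ih β hβ) p hp
    refine ⟨⟨β, φ, F⟩, ⟨hF1, hF2⟩, hβ, ?_⟩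
    ext z
    rw [Tr.mem_den, h z]
    simp only [hF3]

/-! ### The canonical well-ordering of trees -/

theorem exists_code : ∃ f : Fml → ℕ, Function.Injective f := exists_injective_nat Fml

noncomputable def fcode : Fml → ℕ := Classical.choose exists_code

theorem fcode_inj {φ ψ : Fml} (h : fcode φ = fcode ψ) : φ = ψ := Classical.choose_spec exists_code h

noncomputable def enc : Fo Ordinal.{0} → List (ℕ × Ordinal.{0})
  | .nil => [(0, 0)]
  | .cons α φ ch sib => (fcode φ + 1, α) :: (enc ch ++ enc sib)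

theorem enc_parse : ∀ (F G : Fo Ordinal.{0}) (l m : List (ℕ × Ordinal.{0})),
    enc F ++ l = enc G ++ m → F = G ∧ l = m
  | .nil, .nil, l, m, h => by
      simp only [enc, List.cons_append, List.nil_append, List.cons.injEq, true_and] at h
      exact ⟨rfl, h⟩
  | .nil, .cons a φ ch sib, l, m, h => by
      simp [enc] at h
  | .cons a φ ch sib, .nil, l, m, h => by
      simp [enc] at h
  | .cons a φ ch sib, .cons b ψ ch' sib', l, m, h => by
      simp only [enc, List.cons_append, List.append_assoc, List.cons.injEq, Prod.mk.injEq] at h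
      obtain ⟨⟨h1, h2⟩, h3⟩ := h
      obtain ⟨h4, h5⟩ := enc_parse ch ch' _ _ h3
      obtain ⟨h6, h7⟩ := enc_parse sib sib' _ _ h5
      have h8 : φ = ψ := fcode_inj (by omega)
      subst h2 h4 h6 h8
      exact ⟨rfl, h7⟩

theorem enc_inj {F G : Fo Ordinal.{0}} (h : enc F = enc G) : F = G :=
  (enc_parse F G [] [] (by simpa using h)).1

/-- letters -/
abbrev ltr : ℕ × Ordinal.{0} → ℕ × Ordinal.{0} → Prop := Prod.Lex (· < ·) (· < ·)

/-- the key of a tree -/
noncomputable def Tr.key (t : Tr) : Ordinal.{0} × List (ℕ × Ordinal.{0}) :=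
  (t.lab, (fcode t.fml, 0) :: enc t.ch)

theorem Tr.key_inj {s t : Tr} (h : s.key = t.key) : s = t := by
  obtain ⟨a, φ, ch⟩ := s
  obtain ⟨b, ψ, ch'⟩ := t
  simp only [Tr.key, Prod.mk.injEq, List.cons.injEq, and_true] at h
  obtain ⟨h1, h2, h3⟩ := h
  have := fcode_inj h2
  have := enc_inj h3
  subst_vars
  rfl

abbrev krel : Ordinal.{0} × List (ℕ × Ordinal.{0}) → Ordinal.{0} × List (ℕ × Ordinal.{0}) → Prop :=
  Prod.Lex (· < ·) (List.Shortlex ltr)

/-- the canonical well-ordering of trees -/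
def trlt (s t : Tr) : Prop := krel s.key t.key

theorem trlt_wf : WellFounded trlt := by
  apply InvImage.wf Tr.key
  exact WellFounded.prod_lex wellFounded_lt (List.Shortlex.wf (WellFounded.prod_lex wellFounded_lt wellFounded_lt))

theorem trlt_trich {s t : Tr} (h1 : ¬ trlt s t) (h2 : ¬ trlt t s) : s = t := by
  apply Tr.key_inj
  exact Std.Trichotomous.trichotomous (r := krel) _ _ h1 h2

theorem not_trlt_of_lab {s t : Tr} (h : ¬ trlt s t) : t.lab ≤ s.lab := by
  by_contra hc
  exact h (Prod.Lex.left _ _ (not_le.1 hc))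

/-- letter map -/
noncomputable def lmap (f : Ordinal.{0} → Ordinal.{0}) (x : ℕ × Ordinal.{0}) : ℕ × Ordinal.{0} :=
  (x.1, if x.1 = 0 then x.2 else f x.2)

theorem enc_map (f : Ordinal.{0} → Ordinal.{0}) : ∀ F : Fo Ordinal.{0}, enc (F.map f) = (enc F).map (lmap f)
  | .nil => by simp [enc, Fo.map, lmap]
  | .cons a φ ch sib => by
      simp [enc, Fo.map, lmap, enc_map f ch, enc_map f sib]

theorem lex_map {α : Type*} {r : α → α → Prop} {g : α → α} {P : α → Prop}
    (hg : ∀ x y, P x → P y → (r (g x) (g y) ↔ r x y)) (hi : ∀ x y, P x → P y → g x = g y → x = y) :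
    ∀ (l m : List α), (∀ x ∈ l, P x) → (∀ x ∈ m, P x) →
      (List.Lex r (l.map g) (m.map g) ↔ List.Lex r l m)
  | [], [], _, _ => by simp
  | [], y :: m, _, _ => by simp
  | x :: l, [], _, _ => by simp
  | x :: l, y :: m, hl, hm => by
      have hx := hl x List.mem_cons_self
      have hy := hm y List.mem_cons_self
      have ih := lex_map hg hi l m (fun z hz => hl z (List.mem_cons_of_mem _ hz))
        (fun z hz => hm z (List.mem_cons_of_mem _ hz))
      simp only [List.map_cons]
      constructor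
      · intro h
        generalize hx' : g x = gx at h
        generalize hy' : g y = gy at h
        cases h with
        | cons h' =>
          have := hi x y hx hy (hx'.trans hy'.symm)
          subst this
          exact List.Lex.cons (ih.1 h')
        | rel h' =>
          subst hx' hy'
          exact List.Lex.rel ((hg x y hx hy).1 h')
      · intro h
        cases h with
        | cons h' => exact List.Lex.cons (ih.2 h')
        | rel h' => exact List.Lex.rel ((hg x y hx hy).2 h')

theorem mem_enc {a : Set Ordinal.{0}} : ∀ {F : Fo Ordinal.{0}}, F.All (· ∈ a) → ∀ x ∈ enc F, x.1 = 0 ∧ x.2 = 0 ∨ x.1 ≠ 0 ∧ x.2 ∈ a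
  | .nil, _ => by simp [enc]
  | .cons α φ ch sib, hF => by
      intro x hx
      rw [enc, List.mem_cons, List.mem_append] at hx
      rcases hx with rfl | hx | hx
      · right
        exact ⟨by simp, hF.1⟩
      · exact mem_enc hF.2.1 x hx
      · exact mem_enc hF.2.2 x hx

theorem lex_prod {f : Ordinal.{0} → Ordinal.{0}} {a : Set Ordinal.{0}} (hf : StrictMonoOn f a)
    (x y : ℕ × Ordinal.{0}) (hx : x.1 = 0 ∧ x.2 = 0 ∨ x.1 ≠ 0 ∧ x.2 ∈ a)
    (hy : y.1 = 0 ∧ y.2 = 0 ∨ y.1 ≠ 0 ∧ y.2 ∈ a) :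
    ltr (lmap f x) (lmap f y) ↔ ltr x y := by
  obtain ⟨n, α⟩ := x
  obtain ⟨m, β⟩ := y
  simp only [ltr, lmap, Prod.lex_def]
  simp only at hx hy
  rcases lt_trichotomy n m with h | h | h
  · simp [h]
  · subst h
    simp only [lt_irrefl, false_or, true_and]
    rcases hx with ⟨rfl, rfl⟩ | ⟨hn, hx⟩
    · rcases hy with ⟨-, rfl⟩ | ⟨hn', _⟩
      · simp
      · exact absurd rfl hn'
    · rcases hy with ⟨h0, _⟩ | ⟨_, hy⟩
      · exact absurd h0 hn
      · simp only [hn, if_false]
        exact hf.lt_iff_lt hx hy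
  · have h1 : ¬ n < m := by omega
    have h2 : n ≠ m := by omega
    simp [h1, h2]

theorem trlt_map {f : Ordinal.{0} → Ordinal.{0}} {a : Set Ordinal.{0}} (hf : StrictMonoOn f a)
    {s t : Tr} (hs : s.All (· ∈ a)) (ht : t.All (· ∈ a)) :
    trlt (s.map f) (t.map f) ↔ trlt s t := by
  obtain ⟨α, φ, F⟩ := s
  obtain ⟨β, ψ, G⟩ := t
  simp only [trlt, krel, Tr.key, Tr.map, Prod.lex_def]
  have hα : α ∈ a := hs.1
  have hβ : β ∈ a := ht.1
  have h1 : f α < f β ↔ α < β := hf.lt_iff_lt hα hβ
  have h2 : f α = f β ↔ α = β := hf.injOn.eq_iff hα hβ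
  rw [h1, h2]
  have hmap : ∀ (H : Fo Ordinal.{0}) (χ : Fml), ((fcode χ, (0 : Ordinal.{0})) :: enc (H.map f)).map id =
      ((fcode χ, (0 : Ordinal.{0})) :: enc (H.map f)) := fun H χ => List.map_id _
  have h3 : List.Shortlex ltr ((fcode φ, 0) :: enc (F.map f)) ((fcode ψ, 0) :: enc (G.map f)) ↔
      List.Shortlex ltr ((fcode φ, 0) :: enc F) ((fcode ψ, 0) :: enc G) := by
    have hlen : ∀ H : Fo Ordinal.{0}, (enc (H.map f)).length = (enc H).length := by
      intro H; rw [enc_map]; simp
    rw [List.shortlex_def, List.shortlex_def]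
    simp only [List.length_cons, hlen]
    have hl : List.Lex ltr (enc (F.map f)) (enc (G.map f)) ↔ List.Lex ltr (enc F) (enc G) := by
      rw [enc_map, enc_map]
      apply lex_map (P := fun x => x.1 = 0 ∧ x.2 = 0 ∨ x.1 ≠ 0 ∧ x.2 ∈ a)
      · intro x y hx hy
        exact lex_prod hf x y hx hy
      · rintro ⟨n, α⟩ ⟨m, β⟩ hx hy hxy
        simp only [lmap, Prod.mk.injEq] at hxy
        obtain ⟨rfl, h⟩ := hxy
        simp only at hx hy
        rcases hx with ⟨rfl, rfl⟩ | ⟨hn, hx⟩
        · rcases hy with ⟨-, rfl⟩ | ⟨hn', _⟩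
          · rfl
          · exact absurd rfl hn'
        · rcases hy with ⟨h0, _⟩ | ⟨_, hy⟩
          · exact absurd h0 hn
          · simp only [hn, if_false] at h
            rw [hf.injOn hx hy h]
      · exact mem_enc hs.2
      · exact mem_enc ht.2
    have hc : ∀ (l m : List (ℕ × Ordinal.{0})), List.Lex ltr ((fcode φ, 0) :: l) ((fcode ψ, 0) :: m) ↔
        (fcode φ < fcode ψ ∨ fcode φ = fcode ψ ∧ List.Lex ltr l m) := by
      intro l m
      constructor
      · intro h
        generalize hx' : ((fcode φ, 0) : ℕ × Ordinal.{0}) = gx at h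
        generalize hy' : ((fcode ψ, 0) : ℕ × Ordinal.{0}) = gy at h
        cases h with
        | cons h' =>
          right
          have := hx'.trans hy'.symm
          simp only [Prod.mk.injEq, and_true] at this
          exact ⟨this, h'⟩
        | rel h' =>
          left
          subst hx' hy'
          simp only [ltr, Prod.lex_def, lt_self_iff_false, and_false, or_false] at h'
          exact h'
      · rintro (h | ⟨h, h'⟩)
        · exact List.Lex.rel (Prod.Lex.left _ _ h)
        · rw [h]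
          exact List.Lex.cons h'
    rw [hc, hc, hl]
  rw [h3]

/-- the least tree satisfying `P` (a default tree if there is none) -/
noncomputable def pick (P : Tr → Prop) : Tr := by
  classical
  exact if h : {t | P t}.Nonempty then trlt_wf.min {t | P t} h else ⟨0, .eq 0 0, .nil⟩

theorem pick_spec {P : Tr → Prop} (h : ∃ t, P t) : P (pick P) := by
  have h' : {t | P t}.Nonempty := h
  unfold pick
  rw [dif_pos h']
  exact trlt_wf.min_mem {t | P t} h'

theorem pick_min {P : Tr → Prop} {t : Tr} (h : P t) : ¬ trlt t (pick P) := by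
  have h' : {t | P t}.Nonempty := ⟨t, h⟩
  unfold pick
  rw [dif_pos h']
  exact trlt_wf.not_lt_min {t | P t} h

theorem pick_none {P : Tr → Prop} (h : ¬ ∃ t, P t) : pick P = ⟨0, .eq 0 0, .nil⟩ := by
  have h' : ¬ {t | P t}.Nonempty := h
  unfold pick
  rw [dif_neg h']

/-- the tree denoting `L_α` -/
def bt (α : Ordinal.{0}) : Tr := ⟨α, .eq 0 0, .nil⟩

theorem den_bt (α : Ordinal.{0}) : (bt α).den = Lz α := by
  ext z
  rw [Tr.mem_den, mem_Lz]
  simp [bt, Sat]

theorem bt_good (α : Ordinal.{0}) : (bt α).Good := ⟨trivial, trivial⟩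

theorem bt_map (α : Ordinal.{0}) (f : Ordinal.{0} → Ordinal.{0}) : (bt α).map f = bt (f α) := rfl

theorem bt_all {α : Ordinal.{0}} {p : Ordinal.{0} → Prop} : (bt α).All p ↔ p α := by
  simp [bt, Tr.All, Fo.All]

end Pool.H46VL
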