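import Mathlib
import Pool.Agent.H46.VL.Terms

set_option autoImplicit false

namespace Pool.H46VL

def InF (a : Set Ordinal.{0}) (F : Fo Ordinal.{0}) : Prop := F.Good ∧ F.All (· ∈ a)

def InT (a : Set Ordinal.{0}) (t : Tr) : Prop := t.Good ∧ t.All (· ∈ a)

theorem InT.cons {a : Set Ordinal.{0}} {t : Tr} {F : Fo Ordinal.{0}} (ht : InT a t) (hF : InF a F) :
    InF a (t.cons F) := ⟨Tr.good_cons.2 ⟨ht.1, hF.1⟩, Tr.all_cons.2 ⟨ht.2, hF.2⟩⟩

theorem InT.ch {a : Set Ordinal.{0}} {t : Tr} (ht : InT a t) : InF a t.ch := ⟨ht.1.1, ht.2.2⟩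

theorem InT.lab {a : Set Ordinal.{0}} {t : Tr} (ht : InT a t) : t.lab ∈ a := ht.2.1

/-- basic closure conditions on a set of labels -/
structure BC (a : Set Ordinal.{0}) : Prop where
  w : ∀ α ∈ a, ∀ (φ : Fml) (F : Fo Ordinal.{0}), InF a F → F.All (· < α) →
    (∃ z ∈ L α, Sat (L α) φ (z :: denL F)) →
    ∃ t : Tr, InT a t ∧ t.lab < α ∧ Sat (L α) φ (t.den :: denL F)
  can : ∀ s : Tr, InT a s → ∀ α, s.den ∈ L α → ∃ t : Tr, InT a t ∧ t.lab < α ∧ t.den = s.den
  sub : ∀ s t : Tr, InT a s → InT a t → (∃ z ∈ s.den, z ∉ t.den) →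
    ∃ r : Tr, InT a r ∧ r.den ∈ s.den ∧ r.den ∉ t.den

/-- order isomorphism between sets of labels -/
structure OIso (a a' : Set Ordinal.{0}) (f g : Ordinal.{0} → Ordinal.{0}) : Prop where
  mf : ∀ α ∈ a, f α ∈ a'
  mg : ∀ α ∈ a', g α ∈ a
  gf : ∀ α ∈ a, g (f α) = α
  fg : ∀ α ∈ a', f (g α) = α
  mono : ∀ α ∈ a, ∀ β ∈ a, α < β → f α < f β

namespace OIso

variable {a a' : Set Ordinal.{0}} {f g : Ordinal.{0} → Ordinal.{0}}

theorem symm (h : OIso a a' f g) : OIso a' a g f where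
  mf := h.mg
  mg := h.mf
  gf := h.fg
  fg := h.gf
  mono := by
    intro α hα β hβ hlt
    rcases lt_trichotomy (g α) (g β) with h1 | h1 | h1
    · exact h1
    · exfalso
      have : f (g α) = f (g β) := by rw [h1]
      rw [h.fg α hα, h.fg β hβ] at this
      exact absurd this hlt.ne
    · exfalso
      have := h.mono _ (h.mg β hβ) _ (h.mg α hα) h1
      rw [h.fg α hα, h.fg β hβ] at this
      exact absurd this (not_lt.2 hlt.le)

theorem strictMonoOn (h : OIso a a' f g) : StrictMonoOn f a := fun α hα β hβ hlt => h.mono α hα β hβ hlt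

theorem all_lt (h : OIso a a' f g) {μ : Ordinal.{0}} (hμ : μ ∈ a) :
    ∀ {F : Fo Ordinal.{0}}, F.All (· ∈ a) → F.All (· < μ) → (F.map f).All (· < f μ) := by
  intro F h1 h2
  rw [Fo.all_map]
  exact (h1.and h2).mono fun b hb => h.mono b hb.1 μ hμ hb.2

theorem all_mem (h : OIso a a' f g) {F : Fo Ordinal.{0}} (h1 : F.All (· ∈ a)) : (F.map f).All (· ∈ a') := by
  rw [Fo.all_map]
  exact h1.mono fun b hb => h.mf b hb

theorem good (h : OIso a a' f g) : ∀ {F : Fo Ordinal.{0}}, F.Good → F.All (· ∈ a) → (F.map f).Good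
  | .nil, _, _ => trivial
  | .cons α φ ch sib, hg, ha => by
      refine ⟨good h hg.1 ha.2.1, ?_, good h hg.2.2 ha.2.2⟩
      exact h.all_lt ha.1 ha.2.1 hg.2.1

theorem inF (h : OIso a a' f g) {F : Fo Ordinal.{0}} (hF : InF a F) : InF a' (F.map f) :=
  ⟨h.good hF.1 hF.2, h.all_mem hF.2⟩

theorem inT (h : OIso a a' f g) {t : Tr} (ht : InT a t) : InT a' (t.map f) :=
  ⟨⟨h.good ht.1.1 ht.2.2, h.all_lt ht.2.1 ht.2.2 ht.1.2⟩, ⟨h.mf _ ht.2.1, h.all_mem ht.2.2⟩⟩

theorem map_map_F (h : OIso a a' f g) {F : Fo Ordinal.{0}} (hF : F.All (· ∈ a)) : (F.map f).map g = F := by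
  rw [Fo.map_map]
  exact Fo.map_id' (p := (· ∈ a)) (fun b hb => h.gf b hb) hF

theorem map_map (h : OIso a a' f g) {t : Tr} (ht : InT a t) : (t.map f).map g = t := by
  obtain ⟨α, φ, ch⟩ := t
  simp only [Tr.map, Tr.mk.injEq, true_and]
  exact ⟨h.gf _ ht.2.1, h.map_map_F ht.2.2⟩

theorem trans {b : Set Ordinal.{0}} {f' g' : Ordinal.{0} → Ordinal.{0}} (h : OIso a a' f g)
    (h' : OIso a' b f' g') : OIso a b (fun x => f' (f x)) (fun x => g (g' x)) where
  mf := fun α hα => h'.mf _ (h.mf α hα)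
  mg := fun α hα => h.mg _ (h'.mg α hα)
  gf := fun α hα => by simp only [h'.gf _ (h.mf α hα), h.gf α hα]
  fg := fun α hα => by simp only [h.fg _ (h'.mg α hα), h'.fg α hα]
  mono := fun α hα β hβ hlt => h'.mono _ (h.mf α hα) _ (h.mf β hβ) (h.mono α hα β hβ hlt)

end OIso

/-- the `i`-th tree of a forest -/
def Fo.nth : Fo Ordinal.{0} → ℕ → Option Tr
  | .nil, _ => none
  | .cons a φ ch _, 0 => some ⟨a, φ, ch⟩
  | .cons _ _ _ sib, n + 1 => sib.nth n

theorem denL_get : ∀ (F : Fo Ordinal.{0}) (i : ℕ), (denL F)[i]? = (F.nth i).map Tr.den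
  | .nil, i => by simp [denL, Fo.nth]
  | .cons a φ ch sib, 0 => by simp [denL, Fo.nth, Tr.den]
  | .cons a φ ch sib, n + 1 => by simp [denL, Fo.nth, denL_get sib n]

theorem nth_map (f : Ordinal.{0} → Ordinal.{0}) : ∀ (F : Fo Ordinal.{0}) (i : ℕ),
    (F.map f).nth i = (F.nth i).map (Tr.map f)
  | .nil, i => by simp [Fo.map, Fo.nth]
  | .cons a φ ch sib, 0 => by simp [Fo.map, Fo.nth, Tr.map]
  | .cons a φ ch sib, n + 1 => by simp [Fo.map, Fo.nth, nth_map f sib n]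

theorem inF_nth {a : Set Ordinal.{0}} : ∀ {F : Fo Ordinal.{0}} {i : ℕ} {t : Tr}, InF a F → F.nth i = some t → InT a t
  | .nil, i, t, _, h => by simp [Fo.nth] at h
  | .cons b φ ch sib, 0, t, hF, h => by
      simp only [Fo.nth, Option.some.injEq] at h
      subst h
      exact ⟨⟨hF.1.1, hF.1.2.1⟩, ⟨hF.2.1, hF.2.2.1⟩⟩
  | .cons b φ ch sib, n + 1, t, hF, h => by
      simp only [Fo.nth] at h
      exact inF_nth ⟨hF.1.2.2, hF.2.2.2⟩ h

theorem all_nth {p : Ordinal.{0} → Prop} : ∀ {F : Fo Ordinal.{0}} {i : ℕ} {t : Tr}, F.All p → F.nth i = some t → t.All p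
  | .nil, i, t, _, h => by simp [Fo.nth] at h
  | .cons b φ ch sib, 0, t, hF, h => by
      simp only [Fo.nth, Option.some.injEq] at h
      subst h
      exact ⟨hF.1, hF.2.1⟩
  | .cons b φ ch sib, n + 1, t, hF, h => by
      simp only [Fo.nth] at h
      exact all_nth hF.2.2 h

def Agree (f : Ordinal.{0} → Ordinal.{0}) (a : Set Ordinal.{0}) (μ : Ordinal.{0}) : Prop :=
  ∀ s t : Tr, InT a s → InT a t → s.lab < μ → t.lab < μ →
    ((s.den ∈ t.den ↔ (s.map f).den ∈ (t.map f).den) ∧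
     (s.den = t.den ↔ (s.map f).den = (t.map f).den))

theorem Agree.symm {a a' : Set Ordinal.{0}} {f g : Ordinal.{0} → Ordinal.{0}} (h : OIso a a' f g)
    {μ : Ordinal.{0}} (hμ : μ ∈ a) (hA : Agree f a μ) : Agree g a' (f μ) := by
  intro s t hs ht h1 h2
  have hs' := h.symm.inT hs
  have ht' := h.symm.inT ht
  have e1 : (s.map g).lab < μ := by
    have := h.symm.mono _ hs.lab _ (h.mf μ hμ) h1
    rwa [h.gf μ hμ] at this
  have e2 : (t.map g).lab < μ := by
    have := h.symm.mono _ ht.lab _ (h.mf μ hμ) h2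
    rwa [h.gf μ hμ] at this
  have := hA (s.map g) (t.map g) hs' ht' e1 e2
  rw [h.symm.map_map hs, h.symm.map_map ht] at this
  exact ⟨this.1.symm, this.2.symm⟩

theorem fo_agree {a a' : Set Ordinal.{0}} {f g : Ordinal.{0} → Ordinal.{0}} (h : OIso a a' f g)
    (hb : BC a) (hb' : BC a') {μ : Ordinal.{0}} (hμ : μ ∈ a) (hA : Agree f a μ) :
    ∀ (φ : Fml) (F : Fo Ordinal.{0}), InF a F → F.All (· < μ) →
      (Sat (L μ) φ (denL F) ↔ Sat (L (f μ)) φ (denL (F.map f))) := by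
  intro φ
  induction φ with
  | mem i j =>
    intro F hF hlt
    simp only [Sat, denL_get, nth_map]
    rcases hi : F.nth i with _ | s
    · simp
    · rcases hj : F.nth j with _ | t
      · simp
      · simp only [Option.map_some, Option.mem_some_iff, exists_eq_left']
        exact (hA s t (inF_nth hF hi) (inF_nth hF hj) (all_nth hlt hi).1 (all_nth hlt hj).1).1
  | eq i j =>
    intro F hF hlt
    simp only [Sat, denL_get, nth_map]
    rcases hi : F.nth i with _ | s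
    · simp
    · rcases hj : F.nth j with _ | t
      · simp
      · simp only [Option.map_some, Option.mem_some_iff, exists_eq_left']
        exact (hA s t (inF_nth hF hi) (inF_nth hF hj) (all_nth hlt hi).1 (all_nth hlt hj).1).2
  | neg φ ih =>
    intro F hF hlt
    simp only [Sat]
    rw [ih F hF hlt]
  | and φ ψ ih1 ih2 =>
    intro F hF hlt
    simp only [Sat]
    rw [ih1 F hF hlt, ih2 F hF hlt]
  | ex φ ih =>
    intro F hF hlt
    simp only [Sat]
    constructor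
    · intro hx
      obtain ⟨t, ht, htl, hS⟩ := hb.w μ hμ φ F hF hlt hx
      have h2 := (ih (t.cons F) (ht.cons hF) (Tr.all_cons.2 ⟨ht.1.all_lt htl, hlt⟩)).1 hS
      have h3 := h.inT ht
      refine ⟨(t.map f).den, Tr.den_mem_L h3.1 ?_, h2⟩
      exact h.mono _ ht.lab _ hμ htl
    · intro hx
      have hlt' := h.all_lt hμ hF.2 hlt
      obtain ⟨t', ht', htl', hS⟩ := hb'.w (f μ) (h.mf μ hμ) φ (F.map f) (h.inF hF) hlt' hx
      have ht := h.symm.inT ht'
      have e1 : (t'.map g).lab < μ := by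
        have := h.symm.mono _ ht'.lab _ (h.mf μ hμ) htl'
        rwa [h.gf μ hμ] at this
      have e2 : ((t'.map g).cons F).map f = t'.cons (F.map f) := by
        have := h.symm.map_map ht'
        obtain ⟨α, ψ, ch⟩ := t'
        simp only [Tr.map, Tr.mk.injEq, true_and] at this
        simp only [Tr.cons, Tr.map, Fo.map]
        rw [this.1, this.2]
      have h2 := (ih ((t'.map g).cons F) (ht.cons hF) (Tr.all_cons.2 ⟨ht.1.all_lt e1, hlt⟩)).2
        (by rw [e2]; exact hS)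
      refine ⟨(t'.map g).den, Tr.den_mem_L ht.1 e1, h2⟩



/-- membership for trees with increasing labels -/
theorem mem_agree1 {a a' : Set Ordinal.{0}} {f g : Ordinal.{0} → Ordinal.{0}} (h : OIso a a' f g)
    (hb : BC a) (hb' : BC a') {s t : Tr} (hs : InT a s) (ht : InT a t) (hlt : s.lab < t.lab)
    (hA : Agree f a t.lab) : s.den ∈ t.den ↔ (s.map f).den ∈ (t.map f).den := by
  rw [Tr.mem_den, Tr.mem_den]
  have h1 : s.den ∈ L t.lab := Tr.den_mem_L hs.1 hlt
  have h2 : (s.map f).den ∈ L (t.map f).lab :=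
    Tr.den_mem_L (h.inT hs).1 (h.mono _ hs.lab _ ht.lab hlt)
  have h3 := fo_agree h hb hb' ht.lab hA t.fml (s.cons t.ch) (hs.cons ht.ch)
    (Tr.all_cons.2 ⟨hs.1.all_lt hlt, ht.1.2⟩)
  simp only [h1, h2, true_and]
  exact h3

theorem Agree.mono {f : Ordinal.{0} → Ordinal.{0}} {a : Set Ordinal.{0}} {μ ν : Ordinal.{0}}
    (hA : Agree f a μ) (h : ν ≤ μ) : Agree f a ν :=
  fun s t hs ht h1 h2 => hA s t hs ht (h1.trans_le h) (h2.trans_le h)

/-- subset step -/
theorem sub_step {a a' : Set Ordinal.{0}} {f g : Ordinal.{0} → Ordinal.{0}} (h : OIso a a' f g)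
    (hb : BC a) (hb' : BC a') {μ : Ordinal.{0}} (hA : Agree f a μ) {s t : Tr}
    (hs : InT a s) (ht : InT a t) (hsμ : s.lab ≤ μ) (htμ : t.lab ≤ μ)
    (hst : ∀ z ∈ s.den, z ∈ t.den) : ∀ z ∈ (s.map f).den, z ∈ (t.map f).den := by
  by_contra hc
  push Not at hc
  obtain ⟨r', hr', hr1, hr2⟩ := hb'.sub _ _ (h.inT hs) (h.inT ht) hc
  have hr3 : r'.den ∈ L (f s.lab) := by
    have := (Tr.mem_den.1 hr1).1
    exact this
  obtain ⟨u', hu', hu1, hu2⟩ := hb'.can r' hr' _ hr3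
  have hu := h.symm.inT hu'
  have hmm := h.symm.map_map hu'
  have hul : (u'.map g).lab < s.lab := by
    have := h.symm.mono _ hu'.lab _ (h.mf _ hs.lab) hu1
    rwa [h.gf _ hs.lab] at this
  have h1 : (u'.map g).den ∈ s.den := by
    rw [mem_agree1 h hb hb' hu hs hul (hA.mono hsμ), hmm, hu2]
    exact hr1
  have h2 := hst _ h1
  have h3 : ((u'.map g).map f).den ∈ (t.map f).den := by
    rcases lt_or_ge (u'.map g).lab t.lab with hlt | hge
    · exact (mem_agree1 h hb hb' hu ht hlt (hA.mono htμ)).1 h2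
    · obtain ⟨v, hv, hv1, hv2⟩ := hb.can _ hu t.lab (Tr.mem_den.1 h2).1
      have h4 := ((hA v (u'.map g) hv hu (hv1.trans_le htμ) (hul.trans_le hsμ)).2).1 hv2
      rw [← h4]
      exact (mem_agree1 h hb hb' hv ht hv1 (hA.mono htμ)).1 (by rw [hv2]; exact h2)
  rw [hmm, hu2] at h3
  exact hr2 h3

theorem eq_step {a a' : Set Ordinal.{0}} {f g : Ordinal.{0} → Ordinal.{0}} (h : OIso a a' f g)
    (hb : BC a) (hb' : BC a') {μ : Ordinal.{0}} (hA : Agree f a μ) {s t : Tr}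
    (hs : InT a s) (ht : InT a t) (hsμ : s.lab ≤ μ) (htμ : t.lab ≤ μ)
    (hst : s.den = t.den) : (s.map f).den = (t.map f).den := by
  ext z
  constructor
  · exact sub_step h hb hb' hA hs ht hsμ htμ (fun z hz => by rwa [← hst]) z
  · exact sub_step h hb hb' hA ht hs htμ hsμ (fun z hz => by rwa [hst]) z

theorem mem_step {a a' : Set Ordinal.{0}} {f g : Ordinal.{0} → Ordinal.{0}} (h : OIso a a' f g)
    (hb : BC a) (hb' : BC a') {μ : Ordinal.{0}} (hA : Agree f a μ) {s t : Tr}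
    (hs : InT a s) (ht : InT a t) (hsμ : s.lab ≤ μ) (htμ : t.lab ≤ μ)
    (hst : s.den ∈ t.den) : (s.map f).den ∈ (t.map f).den := by
  obtain ⟨v, hv, hv1, hv2⟩ := hb.can s hs t.lab (Tr.mem_den.1 hst).1
  have h1 := eq_step h hb hb' hA hv hs (hv1.le.trans htμ) hsμ hv2
  rw [← h1]
  exact (mem_agree1 h hb hb' hv ht hv1 (hA.mono htμ)).1 (by rw [hv2]; exact hst)

theorem agree_le {a a' : Set Ordinal.{0}} {f g : Ordinal.{0} → Ordinal.{0}} (h : OIso a a' f g)
    (hb : BC a) (hb' : BC a') {μ : Ordinal.{0}} (hμ : μ ∈ a) (hA : Agree f a μ) {s t : Tr}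
    (hs : InT a s) (ht : InT a t) (hsμ : s.lab ≤ μ) (htμ : t.lab ≤ μ) :
    ((s.den ∈ t.den ↔ (s.map f).den ∈ (t.map f).den) ∧
     (s.den = t.den ↔ (s.map f).den = (t.map f).den)) := by
  have hA' := hA.symm h hμ
  have hs' := h.inT hs
  have ht' := h.inT ht
  have e1 : (s.map f).lab ≤ f μ := by
    rcases hsμ.lt_or_eq with h1 | h1
    · exact (h.mono _ hs.lab _ hμ h1).le
    · rw [← h1]; exact le_rfl
  have e2 : (t.map f).lab ≤ f μ := by
    rcases htμ.lt_or_eq with h1 | h1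
    · exact (h.mono _ ht.lab _ hμ h1).le
    · rw [← h1]; exact le_rfl
  refine ⟨⟨mem_step h hb hb' hA hs ht hsμ htμ, fun hm => ?_⟩,
    ⟨eq_step h hb hb' hA hs ht hsμ htμ, fun hm => ?_⟩⟩
  · have := mem_step h.symm hb' hb hA' hs' ht' e1 e2 hm
    rwa [h.map_map hs, h.map_map ht] at this
  · have := eq_step h.symm hb' hb hA' hs' ht' e1 e2 hm
    rwa [h.map_map hs, h.map_map ht] at this

theorem agree_all {a a' : Set Ordinal.{0}} {f g : Ordinal.{0} → Ordinal.{0}} (h : OIso a a' f g)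
    (hb : BC a) (hb' : BC a') : ∀ μ : Ordinal.{0}, Agree f a μ := by
  intro μ
  induction μ using WellFoundedLT.induction with
  | ind μ ih =>
    intro s t hs ht h1 h2
    rcases le_total s.lab t.lab with h3 | h3
    · exact agree_le h hb hb' ht.lab (ih _ h2) hs ht h3 le_rfl
    · exact agree_le h hb hb' hs.lab (ih _ h1) hs ht le_rfl h3

/-- **Condensation**: isomorphic closed sets of labels give isomorphic structures. -/
theorem iso_mem {a a' : Set Ordinal.{0}} {f g : Ordinal.{0} → Ordinal.{0}} (h : OIso a a' f g)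
    (hb : BC a) (hb' : BC a') {s t : Tr} (hs : InT a s) (ht : InT a t) :
    s.den ∈ t.den ↔ (s.map f).den ∈ (t.map f).den :=
  (agree_all h hb hb' (max s.lab t.lab + 1) s t hs ht
    (lt_of_le_of_lt (le_max_left _ _) (Order.lt_add_one_iff.2 le_rfl))
    (lt_of_le_of_lt (le_max_right _ _) (Order.lt_add_one_iff.2 le_rfl))).1

theorem iso_eq {a a' : Set Ordinal.{0}} {f g : Ordinal.{0} → Ordinal.{0}} (h : OIso a a' f g)
    (hb : BC a) (hb' : BC a') {s t : Tr} (hs : InT a s) (ht : InT a t) :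
    s.den = t.den ↔ (s.map f).den = (t.map f).den :=
  (agree_all h hb hb' (max s.lab t.lab + 1) s t hs ht
    (lt_of_le_of_lt (le_max_left _ _) (Order.lt_add_one_iff.2 le_rfl))
    (lt_of_le_of_lt (le_max_right _ _) (Order.lt_add_one_iff.2 le_rfl))).2

theorem iso_sat {a a' : Set Ordinal.{0}} {f g : Ordinal.{0} → Ordinal.{0}} (h : OIso a a' f g)
    (hb : BC a) (hb' : BC a') {μ : Ordinal.{0}} (hμ : μ ∈ a) (φ : Fml) (F : Fo Ordinal.{0})
    (hF : InF a F) (hlt : F.All (· < μ)) :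
    Sat (L μ) φ (denL F) ↔ Sat (L (f μ)) φ (denL (F.map f)) :=
  fo_agree h hb hb' hμ (agree_all h hb hb' μ) φ F hF hlt

/-- every initial segment of the ordinals is closed -/
theorem bc_Iio (η : Ordinal.{0}) : BC (Set.Iio η) where
  w := by
    intro α hα φ F hF hlt hx
    obtain ⟨z, hz, hS⟩ := hx
    obtain ⟨t, ht1, ht2, rfl⟩ := exists_tr z hz
    exact ⟨t, ⟨ht1, ht1.all_lt (ht2.trans hα)⟩, ht2, hS⟩
  can := by
    intro s hs α hα
    obtain ⟨t, ht1, ht2, ht3⟩ := exists_tr _ hα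
    rcases le_or_gt α s.lab with h | h
    · exact ⟨t, ⟨ht1, ht1.all_lt (ht2.trans (h.trans_lt hs.lab))⟩, ht2, ht3⟩
    · exact ⟨s, hs, h, rfl⟩
  sub := by
    intro s t hs ht hz
    obtain ⟨z, hz1, hz2⟩ := hz
    obtain ⟨r, hr1, hr2, rfl⟩ := exists_tr z (Tr.mem_den.1 hz1).1
    exact ⟨r, ⟨hr1, hr1.all_lt (hr2.trans hs.lab)⟩, hz1, hz2⟩

end Pool.H46VL
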