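import Mathlib
import Pool.Agent.H46.VL.Cond

set_option autoImplicit false

namespace Pool.H46VL

/-! ### generic closure -/

section generic

variable {ι : Type} (G : ι → Fo Ordinal.{0} → Tr)

/-- closed sets of labels -/
def Cl (a : Set Ordinal.{0}) : Prop := ∀ (i : ι) (F : Fo Ordinal.{0}), InF a F → (G i F).All (· ∈ a)

/-- the hull of a set of labels -/
def hull (A : Set Ordinal.{0}) : Set Ordinal.{0} := {α | ∀ a, Cl G a → A ⊆ a → α ∈ a}

variable {G}

theorem Fo.all_forall {κ : Sort*} {p : κ → Ordinal.{0} → Prop} : ∀ {F : Fo Ordinal.{0}},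
    (∀ k, F.All (p k)) → F.All (fun x => ∀ k, p k x)
  | .nil, _ => trivial
  | .cons _ _ ch sib, h => ⟨fun k => (h k).1, Fo.all_forall (F := ch) fun k => (h k).2.1,
      Fo.all_forall (F := sib) fun k => (h k).2.2⟩

theorem Tr.all_forall {κ : Sort*} {p : κ → Ordinal.{0} → Prop} {t : Tr}
    (h : ∀ k, t.All (p k)) : t.All (fun x => ∀ k, p k x) :=
  ⟨fun k => (h k).1, Fo.all_forall fun k => (h k).2⟩

theorem subset_hull (A : Set Ordinal.{0}) : A ⊆ hull G A := fun _ h _ _ hA => hA h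

theorem hull_min {A a : Set Ordinal.{0}} (ha : Cl G a) (hA : A ⊆ a) : hull G A ⊆ a := fun _ h => h a ha hA

theorem hull_mono {A B : Set Ordinal.{0}} (h : A ⊆ B) : hull G A ⊆ hull G B :=
  fun _ hα a ha hB => hα a ha (h.trans hB)

theorem cl_hull (A : Set Ordinal.{0}) : Cl G (hull G A) := by
  intro i F hF
  have h1 : ∀ k : {a : Set Ordinal.{0} // Cl G a ∧ A ⊆ a}, (G i F).All (· ∈ k.1) := by
    rintro ⟨a, ha, hA⟩
    refine ha i F ⟨hF.1, hF.2.mono fun b hb => hb a ha hA⟩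
  have h2 := Tr.all_forall h1
  refine ⟨fun a ha hA => h2.1 ⟨a, ha, hA⟩, h2.2.mono fun b hb a ha hA => hb ⟨a, ha, hA⟩⟩

theorem Fo.all_iUnion {a : ℕ → Set Ordinal.{0}} (hm : Monotone a) : ∀ {F : Fo Ordinal.{0}},
    F.All (fun x => x ∈ ⋃ n, a n) → ∃ n, F.All (· ∈ a n)
  | .nil, _ => ⟨0, trivial⟩
  | .cons b φ ch sib, h => by
      obtain ⟨n1, h1⟩ := Set.mem_iUnion.1 h.1
      obtain ⟨n2, h2⟩ := Fo.all_iUnion hm h.2.1
      obtain ⟨n3, h3⟩ := Fo.all_iUnion hm h.2.2
      refine ⟨max n1 (max n2 n3), hm (le_max_left _ _) h1, h2.mono fun x hx => ?_, h3.mono fun x hx => ?_⟩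
      · exact hm ((le_max_left _ _).trans (le_max_right _ _)) hx
      · exact hm ((le_max_right _ _).trans (le_max_right _ _)) hx

theorem Tr.All.mono {p q : Ordinal.{0} → Prop} (h : ∀ a, p a → q a) {t : Tr} (ht : t.All p) : t.All q :=
  ⟨h _ ht.1, ht.2.mono h⟩

theorem cl_iUnion {a : ℕ → Set Ordinal.{0}} (hm : Monotone a) (ha : ∀ n, Cl G (a n)) : Cl G (⋃ n, a n) := by
  intro i F hF
  obtain ⟨n, hn⟩ := Fo.all_iUnion hm hF.2
  exact (ha n i F ⟨hF.1, hn⟩).mono fun x hx => Set.mem_iUnion.2 ⟨n, hx⟩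

/-- the set of labels of a forest -/
def Fo.labset : Fo Ordinal.{0} → Set Ordinal.{0}
  | .nil => ∅
  | .cons a _ ch sib => {a} ∪ (ch.labset ∪ sib.labset)

theorem Fo.labset_finite : ∀ F : Fo Ordinal.{0}, F.labset.Finite
  | .nil => Set.finite_empty
  | .cons a _ ch sib => (Set.finite_singleton a).union ((Fo.labset_finite ch).union (Fo.labset_finite sib))

theorem Fo.all_iff {p : Ordinal.{0} → Prop} : ∀ {F : Fo Ordinal.{0}}, F.All p ↔ ∀ x ∈ F.labset, p x
  | .nil => by simp [Fo.All, Fo.labset]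
  | .cons a _ ch sib => by
      simp only [Fo.All, Fo.labset, Fo.all_iff (F := ch), Fo.all_iff (F := sib), Set.mem_union,
        Set.mem_singleton_iff]
      constructor
      · rintro ⟨h1, h2, h3⟩ x (rfl | h | h)
        exacts [h1, h2 x h, h3 x h]
      · intro h
        exact ⟨h a (Or.inl rfl), fun x hx => h x (Or.inr (Or.inl hx)), fun x hx => h x (Or.inr (Or.inr hx))⟩

/-- the set of labels of a tree -/
def Tr.labset (t : Tr) : Set Ordinal.{0} := {t.lab} ∪ t.ch.labset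

theorem Tr.labset_finite (t : Tr) : t.labset.Finite := (Set.finite_singleton _).union t.ch.labset_finite

theorem Tr.all_iff {p : Ordinal.{0} → Prop} {t : Tr} : t.All p ↔ ∀ x ∈ t.labset, p x := by
  simp only [Tr.All, Fo.all_iff, Tr.labset, Set.mem_union, Set.mem_singleton_iff]
  constructor
  · rintro ⟨h1, h2⟩ x (rfl | h)
    exacts [h1, h2 x h]
  · intro h
    exact ⟨h _ (Or.inl rfl), fun x hx => h x (Or.inr hx)⟩

/-- one step of closure -/
def cstep (G : ι → Fo Ordinal.{0} → Tr) (A : Set Ordinal.{0}) : Set Ordinal.{0} :=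
  A ∪ ⋃ i, ⋃ F ∈ {F : Fo Ordinal.{0} | F.All (· ∈ A)}, (G i F).labset

theorem cstep_countable [Countable ι] {A : Set Ordinal.{0}} (hA : A.Countable) : (cstep G A).Countable := by
  refine hA.union (Set.countable_iUnion fun i => ?_)
  exact (Fo.countable_all hA).biUnion fun F _ => (G i F).labset_finite.countable

theorem hull_countable [Countable ι] {A : Set Ordinal.{0}} (hA : A.Countable) : (hull G A).Countable := by
  set a : ℕ → Set Ordinal.{0} := fun n => (cstep G)^[n] A with ha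
  have hs : ∀ n, a (n + 1) = cstep G (a n) := fun n => Function.iterate_succ_apply' _ _ _
  have hm : Monotone a := by
    apply monotone_nat_of_le_succ
    intro n
    rw [hs]
    exact Set.subset_union_left
  have hc : ∀ n, (a n).Countable := by
    intro n
    induction n with
    | zero => exact hA
    | succ n ih => rw [hs]; exact cstep_countable ih
  have hcl : Cl G (⋃ n, a n) := by
    intro i F hF
    obtain ⟨n, hn⟩ := Fo.all_iUnion hm hF.2
    rw [Tr.all_iff]
    intro x hx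
    refine Set.mem_iUnion.2 ⟨n + 1, ?_⟩
    rw [hs]
    right
    exact Set.mem_iUnion.2 ⟨i, Set.mem_biUnion hn hx⟩
  have h0 : A ⊆ ⋃ n, a n := fun x hx => Set.mem_iUnion.2 ⟨0, hx⟩
  exact (Set.countable_iUnion hc).mono (hull_min hcl h0)

end generic

/-! ### the concrete operations -/

/-- names of operations -/
inductive Op : Type
  | w (φ : Fml)
  | can
  | sub
  | ex (n : ℕ)
  deriving Countable

/-- the operations; `X` is a family of extra operations with ordinal values -/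
noncomputable def op (X : ℕ → Fo Ordinal.{0} → Ordinal.{0}) : Op → Fo Ordinal.{0} → Tr
  | .w φ, .cons α _ _ sib =>
      pick (fun t => sib.All (· < α) ∧ t.Good ∧ t.lab < α ∧ Sat (L α) φ (t.den :: denL sib))
  | .w _, .nil => bt 0
  | .can, .cons α φ ch _ => pick (fun t => t.Good ∧ t.den = (Tr.mk α φ ch).den)
  | .can, .nil => bt 0
  | .sub, .cons α φ ch (.cons β ψ ch' _) =>
      pick (fun t => t.Good ∧ t.den ∈ (Tr.mk α φ ch).den ∧ t.den ∉ (Tr.mk β ψ ch').den)
  | .sub, .nil => bt 0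
  | .sub, .cons _ _ _ .nil => bt 0
  | .ex n, F => bt (X n F)

variable {X : ℕ → Fo Ordinal.{0} → Ordinal.{0}}

theorem pick_none' {P : Tr → Prop} (h : ¬ ∃ t, P t) : pick P = bt 0 := pick_none h

theorem cl_zero {a : Set Ordinal.{0}} (ha : Cl (op X) a) : (0 : Ordinal.{0}) ∈ a := by
  have := ha .can .nil ⟨trivial, trivial⟩
  exact this.1

theorem inT_bt {a : Set Ordinal.{0}} {α : Ordinal.{0}} (h : α ∈ a) : InT a (bt α) := ⟨bt_good α, bt_all.2 h⟩

theorem inF_nil {a : Set Ordinal.{0}} : InF a .nil := ⟨trivial, trivial⟩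

theorem cl_w {a : Set Ordinal.{0}} (ha : Cl (op X) a) {α : Ordinal.{0}} {φ ψ : Fml} {ch F : Fo Ordinal.{0}}
    (hF : InF a (.cons α ψ ch F))
    (hx : ∃ t : Tr, F.All (· < α) ∧ t.Good ∧ t.lab < α ∧ Sat (L α) φ (t.den :: denL F)) :
    InT a (pick (fun t => F.All (· < α) ∧ t.Good ∧ t.lab < α ∧ Sat (L α) φ (t.den :: denL F))) :=
  ⟨(pick_spec hx).2.1, ha (.w φ) _ hF⟩

theorem cl_can {a : Set Ordinal.{0}} (ha : Cl (op X) a) {s : Tr} (hs : InT a s) :
    InT a (pick (fun t => t.Good ∧ t.den = s.den)) := by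
  refine ⟨(pick_spec (P := fun t => t.Good ∧ t.den = s.den) ⟨s, hs.1, rfl⟩).1, ?_⟩
  exact ha .can (s.cons .nil) (hs.cons inF_nil)

theorem exists_tr_of_mem {s : Tr} {z : ZFSet.{0}} (hz : z ∈ s.den) : ∃ t : Tr, t.Good ∧ t.lab < s.lab ∧ t.den = z :=
  exists_tr z (Tr.mem_den.1 hz).1

theorem cl_sub {a : Set Ordinal.{0}} (ha : Cl (op X) a) {s t : Tr} (hs : InT a s) (ht : InT a t)
    (hx : ∃ r : Tr, r.Good ∧ r.den ∈ s.den ∧ r.den ∉ t.den) :
    InT a (pick (fun r => r.Good ∧ r.den ∈ s.den ∧ r.den ∉ t.den)) := by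
  refine ⟨(pick_spec hx).1, ?_⟩
  exact ha .sub (s.cons (t.cons .nil)) (hs.cons (ht.cons inF_nil))

theorem bc_of_cl {a : Set Ordinal.{0}} (ha : Cl (op X) a) : BC a where
  w := by
    intro α hα φ F hF hlt hx
    obtain ⟨z, hz, hS⟩ := hx
    obtain ⟨t, ht1, ht2, rfl⟩ := exists_tr z hz
    have hex : ∃ t : Tr, F.All (· < α) ∧ t.Good ∧ t.lab < α ∧ Sat (L α) φ (t.den :: denL F) :=
      ⟨t, hlt, ht1, ht2, hS⟩
    have h1 := cl_w ha (ψ := .eq 0 0) (ch := .nil) (φ := φ) ((inT_bt hα).cons hF) hex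
    have h2 := pick_spec hex
    exact ⟨_, h1, h2.2.2.1, h2.2.2.2⟩
  can := by
    intro s hs α hα
    obtain ⟨t, ht1, ht2, ht3⟩ := exists_tr _ hα
    have h1 := cl_can ha hs
    have hP : t.Good ∧ t.den = s.den := ⟨ht1, ht3⟩
    have h2 := pick_min (P := fun t => t.Good ∧ t.den = s.den) hP
    have h3 := pick_spec (P := fun t => t.Good ∧ t.den = s.den) ⟨t, hP⟩
    exact ⟨_, h1, (not_trlt_of_lab h2).trans_lt ht2, h3.2⟩
  sub := by
    intro s t hs ht hz
    obtain ⟨z, hz1, hz2⟩ := hz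
    obtain ⟨r, hr1, _, rfl⟩ := exists_tr_of_mem hz1
    have hex : ∃ r : Tr, r.Good ∧ r.den ∈ s.den ∧ r.den ∉ t.den := ⟨r, hr1, hz1, hz2⟩
    have h1 := cl_sub ha hs ht hex
    have h2 := pick_spec hex
    exact ⟨_, h1, h2.2.1, h2.2.2⟩

theorem OIso.zero {a a' : Set Ordinal.{0}} {f g : Ordinal.{0} → Ordinal.{0}} (h : OIso a a' f g)
    (h0 : (0 : Ordinal.{0}) ∈ a) (h0' : (0 : Ordinal.{0}) ∈ a') : f 0 = 0 := by
  by_contra hc
  have h1 : (0 : Ordinal.{0}) < f 0 := pos_iff_ne_zero.2 hc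
  have h2 := h.symm.mono _ h0' _ (h.mf _ h0) h1
  rw [h.gf _ h0] at h2
  exact absurd h2 (not_lt.2 bot_le)

theorem pick_map {a a' : Set Ordinal.{0}} {f g : Ordinal.{0} → Ordinal.{0}} (h : OIso a a' f g)
    (h0 : f 0 = 0) {P P' : Tr → Prop} (hPP : ∀ t, InT a t → (P t ↔ P' (t.map f)))
    (h1 : (∃ t, P t) → InT a (pick P)) (h2 : (∃ t, P' t) → InT a' (pick P')) :
    pick P' = (pick P).map f := by
  by_cases hex : ∃ t, P t
  · have hw := h1 hex
    have hPw := pick_spec hex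
    have hPw' := (hPP _ hw).1 hPw
    have hex' : ∃ t, P' t := ⟨_, hPw'⟩
    have hw' := h2 hex'
    have hPv := pick_spec hex'
    have hmm := h.symm.map_map hw'
    have hv := h.symm.inT hw'
    have hPv' : P ((pick P').map g) := by
      rw [hPP _ hv, hmm]
      exact hPv
    apply trlt_trich
    · intro hlt
      rw [← hmm, trlt_map h.strictMonoOn hv.2 hw.2] at hlt
      exact pick_min hPv' hlt
    · exact pick_min hPw'
  · have hex' : ¬ ∃ t, P' t := by
      intro hex'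
      have hw' := h2 hex'
      have hPv := pick_spec hex'
      have hmm := h.symm.map_map hw'
      have hv := h.symm.inT hw'
      apply hex
      exact ⟨(pick P').map g, by rw [hPP _ hv, hmm]; exact hPv⟩
    rw [pick_none' hex, pick_none' hex', bt_map, h0]

/-- invariance of the extra operations -/
def XInv (X : ℕ → Fo Ordinal.{0} → Ordinal.{0}) (a : Set Ordinal.{0}) (f : Ordinal.{0} → Ordinal.{0}) : Prop :=
  ∀ (n : ℕ) (F : Fo Ordinal.{0}), InF a F → X n (F.map f) = f (X n F)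

theorem op_map {a a' : Set Ordinal.{0}} {f g : Ordinal.{0} → Ordinal.{0}} (h : OIso a a' f g)
    (ha : Cl (op X) a) (ha' : Cl (op X) a') (hX : XInv X a f) (i : Op) (F : Fo Ordinal.{0})
    (hF : InF a F) : op X i (F.map f) = (op X i F).map f := by
  have h0 : f 0 = 0 := h.zero (cl_zero ha) (cl_zero ha')
  have hb := bc_of_cl ha
  have hb' := bc_of_cl ha'
  have hF' := h.inF hF
  cases i with
  | w φ =>
    cases F with
    | nil => simp only [Fo.map, op, bt_map, h0]
    | cons α ψ ch sib =>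
      simp only [Fo.map, op]
      have hsib : InF a sib := ⟨hF.1.2.2, hF.2.2.2⟩
      apply pick_map h h0
      · intro t ht
        have hα : α ∈ a := hF.2.1
        have e1 : sib.All (· < α) ↔ (sib.map f).All (· < f α) := by
          constructor
          · exact h.all_lt hα hsib.2
          · intro hs
            have := h.symm.all_lt (h.mf α hα) (h.inF hsib).2 hs
            rwa [h.map_map_F hsib.2, h.gf α hα] at this
        have e2 : t.lab < α ↔ (t.map f).lab < f α :=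
          (h.strictMonoOn.lt_iff_lt ht.lab hα).symm
        have e3 : t.Good ↔ (t.map f).Good := ⟨fun _ => (h.inT ht).1, fun _ => ht.1⟩
        rw [← e1, ← e2, ← e3]
        constructor
        · rintro ⟨h1, h2, h3, h4⟩
          exact ⟨h1, h2, h3, (iso_sat h hb hb' hα φ (t.cons sib) (ht.cons hsib)
            (Tr.all_cons.2 ⟨ht.1.all_lt h3, h1⟩)).1 h4⟩
        · rintro ⟨h1, h2, h3, h4⟩
          exact ⟨h1, h2, h3, (iso_sat h hb hb' hα φ (t.cons sib) (ht.cons hsib)
            (Tr.all_cons.2 ⟨ht.1.all_lt h3, h1⟩)).2 h4⟩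
      · exact cl_w ha hF
      · exact cl_w ha' hF'
  | can =>
    cases F with
    | nil => simp only [Fo.map, op, bt_map, h0]
    | cons α ψ ch sib =>
      simp only [Fo.map, op]
      have hs : InT a ⟨α, ψ, ch⟩ := ⟨⟨hF.1.1, hF.1.2.1⟩, ⟨hF.2.1, hF.2.2.1⟩⟩
      apply pick_map h h0
      · intro t ht
        have e3 : t.Good ↔ (t.map f).Good := ⟨fun _ => (h.inT ht).1, fun _ => ht.1⟩
        rw [← e3, iso_eq h hb hb' ht hs]
        exact Iff.rfl
      · intro _
        exact cl_can ha hs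
      · intro _
        exact cl_can ha' (h.inT hs)
  | sub =>
    rcases F with _ | ⟨α, φ, ch, _ | ⟨β, ψ, ch', sib⟩⟩
    · simp only [Fo.map, op, bt_map, h0]
    · simp only [Fo.map, op, bt_map, h0]
    · simp only [Fo.map, op]
      have hs : InT a ⟨α, φ, ch⟩ := ⟨⟨hF.1.1, hF.1.2.1⟩, ⟨hF.2.1, hF.2.2.1⟩⟩
      have ht : InT a ⟨β, ψ, ch'⟩ := ⟨⟨hF.1.2.2.1, hF.1.2.2.2.1⟩, ⟨hF.2.2.2.1, hF.2.2.2.2.1⟩⟩
      apply pick_map h h0
      · intro r hr
        have e3 : r.Good ↔ (r.map f).Good := ⟨fun _ => (h.inT hr).1, fun _ => hr.1⟩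
        rw [← e3, iso_mem h hb hb' hr hs, iso_mem h hb hb' hr ht]
        exact Iff.rfl
      · exact cl_sub ha hs ht
      · exact cl_sub ha' (h.inT hs) (h.inT ht)
  | ex n =>
    simp only [op]
    rw [hX n F hF, bt_map]

theorem hull_map {a a' : Set Ordinal.{0}} {f g : Ordinal.{0} → Ordinal.{0}} (h : OIso a a' f g)
    (ha : Cl (op X) a) (ha' : Cl (op X) a') (hX : XInv X a f) {A : Set Ordinal.{0}} (hA : A ⊆ a)
    {α : Ordinal.{0}} (hα : α ∈ hull (op X) A) : f α ∈ hull (op X) (f '' A) := by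
  have h1 : hull (op X) (f '' A) ⊆ a' := hull_min ha' (by
    rintro _ ⟨x, hx, rfl⟩
    exact h.mf x (hA hx))
  have hcl : Cl (op X) {x | x ∈ a ∧ f x ∈ hull (op X) (f '' A)} := by
    intro i F hF
    have hFa : InF a F := ⟨hF.1, hF.2.mono fun x hx => hx.1⟩
    have e1 := op_map h ha ha' hX i F hFa
    have e2 := ha i F hFa
    have hF2 : InF (hull (op X) (f '' A)) (F.map f) :=
      ⟨(h.inF hFa).1, Fo.all_map.2 (hF.2.mono fun x hx => hx.2)⟩
    have e3 := cl_hull (G := op X) (f '' A) i (F.map f) hF2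
    rw [e1] at e3
    have e4 : (op X i F).All (fun x => f x ∈ hull (op X) (f '' A)) := ⟨e3.1, Fo.all_map.1 e3.2⟩
    exact ⟨⟨e2.1, e4.1⟩, (e2.2.and e4.2)⟩
  have hAs : A ⊆ {x | x ∈ a ∧ f x ∈ hull (op X) (f '' A)} := fun x hx =>
    ⟨hA hx, subset_hull _ ⟨x, hx, rfl⟩⟩
  exact (hull_min hcl hAs hα).2

end Pool.H46VL
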