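import Mathlib
import Pool.Agent.H46.VL.Hull

set_option autoImplicit false

namespace Pool.H46VL

open Ordinal Cardinal

theorem countable_Iio_iff {α : Ordinal.{0}} : (Set.Iio α).Countable ↔ α < ω₁ := by
  rw [← Set.countable_coe_iff, ← Cardinal.mk_le_aleph0_iff, Cardinal.mk_Iio_ordinal,
    ← Cardinal.lift_aleph0.{1, 0}, Cardinal.lift_le, ← Cardinal.lt_aleph_one_iff, ← Cardinal.ord_aleph,
    Cardinal.lt_ord]

theorem not_countable_Iio : ¬ (Set.Iio (ω₁ : Ordinal.{0})).Countable := by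
  rw [countable_Iio_iff]
  exact lt_irrefl _

theorem add_one_lt_omega_one {α : Ordinal.{0}} (h : α < ω₁) : α + 1 < ω₁ := by
  rw [← countable_Iio_iff] at h ⊢
  have : Set.Iio (α + 1) ⊆ Set.Iio α ∪ {α} := by
    intro x hx
    have hx' : x ≤ α := Order.lt_add_one_iff.1 hx
    rcases hx'.lt_or_eq with h1 | h1
    · exact Or.inl h1
    · exact Or.inr h1
  exact (h.union (Set.countable_singleton α)).mono this

/-- the collapsing map of a set of ordinals -/
noncomputable def col (a : Set Ordinal.{0}) (α : Ordinal.{0}) : Ordinal.{0} :=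
  ⨆ β : {β : Ordinal.{0} // β ∈ a ∧ β < α}, (col a β.1 + 1)
termination_by α
decreasing_by exact β.2.2

theorem col_bdd (a : Set Ordinal.{0}) (α : Ordinal.{0}) :
    BddAbove (Set.range fun β : {β : Ordinal.{0} // β ∈ a ∧ β < α} => col a β.1 + 1) := by
  haveI : Small.{0} {β : Ordinal.{0} // β ∈ a ∧ β < α} := by
    have : {β : Ordinal.{0} | β ∈ a ∧ β < α} ⊆ Set.Iio α := fun β h => h.2
    exact small_subset this
  exact Ordinal.bddAbove_of_small

theorem lt_col {a : Set Ordinal.{0}} {α β : Ordinal.{0}} (hβ : β ∈ a) (h : β < α) : col a β < col a α := by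
  rw [col.eq_1 a α]
  have := le_ciSup (col_bdd a α) ⟨β, hβ, h⟩
  exact lt_of_lt_of_le (Order.lt_add_one_iff.2 le_rfl) this

theorem col_surj {a : Set Ordinal.{0}} (α : Ordinal.{0}) : ∀ γ < col a α, ∃ β ∈ a, β < α ∧ col a β = γ := by
  induction α using WellFoundedLT.induction with
  | ind α ih =>
    intro γ hγ
    rw [col.eq_1 a α] at hγ
    have hne : Nonempty {β : Ordinal.{0} // β ∈ a ∧ β < α} := by
      by_contra hc
      rw [not_nonempty_iff] at hc
      rw [ciSup_of_empty] at hγ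
      exact absurd hγ not_lt_bot
    obtain ⟨β, hβ⟩ := exists_lt_of_lt_ciSup hγ
    have h2 : γ ≤ col a β.1 := Order.lt_add_one_iff.1 hβ
    rcases h2.eq_or_lt with h3 | h3
    · exact ⟨β.1, β.2.1, β.2.2, h3.symm⟩
    · obtain ⟨β', h4, h5, h6⟩ := ih β.1 β.2.2 γ h3
      exact ⟨β', h4, h5.trans β.2.2, h6⟩

theorem col_lt {a : Set Ordinal.{0}} (ha : a.Countable) (α : Ordinal.{0}) : col a α < ω₁ := by
  induction α using WellFoundedLT.induction with
  | ind α ih =>
    rw [col.eq_1 a α]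
    haveI : Countable {β : Ordinal.{0} // β ∈ a ∧ β < α} := by
      have : {β : Ordinal.{0} | β ∈ a ∧ β < α} ⊆ a := fun β h => h.1
      exact (ha.mono this).to_subtype
    apply Ordinal.iSup_lt_omega_one
    intro β
    have h1 := ih β.1 β.2.2
    exact add_one_lt_omega_one h1

/-- a countable set of labels is isomorphic to a countable ordinal -/
theorem exists_collapse {a : Set Ordinal.{0}} (ha : a.Countable) :
    ∃ η < (ω₁ : Ordinal.{0}), ∃ g : Ordinal.{0} → Ordinal.{0}, OIso a (Set.Iio η) (col a) g := by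
  classical
  haveI : Countable a := ha.to_subtype
  set η : Ordinal.{0} := ⨆ β : a, (col a β.1 + 1) with hη
  haveI : Small.{0} a := Countable.toSmall _
  have hbdd : BddAbove (Set.range fun β : a => col a β.1 + 1) := Ordinal.bddAbove_of_small
  have h1 : η < ω₁ := by
    apply Ordinal.iSup_lt_omega_one
    intro β
    exact add_one_lt_omega_one (col_lt ha _)
  have hm : ∀ α ∈ a, col a α < η := by
    intro α hα
    exact lt_of_lt_of_le (Order.lt_add_one_iff.2 le_rfl) (le_ciSup hbdd ⟨α, hα⟩)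
  have hs : ∀ γ < η, ∃ β ∈ a, col a β = γ := by
    intro γ hγ
    have hne : Nonempty a := by
      by_contra hc
      rw [not_nonempty_iff] at hc
      rw [hη, ciSup_of_empty] at hγ
      exact absurd hγ not_lt_bot
    rw [hη] at hγ
    obtain ⟨β, hβ⟩ := exists_lt_of_lt_ciSup hγ
    have h2 : γ ≤ col a β.1 := Order.lt_add_one_iff.1 hβ
    rcases h2.eq_or_lt with h3 | h3
    · exact ⟨β.1, β.2, h3.symm⟩
    · obtain ⟨β', h4, _, h6⟩ := col_surj β.1 γ h3
      exact ⟨β', h4, h6⟩
  have hinj : ∀ α ∈ a, ∀ β ∈ a, col a α = col a β → α = β := by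
    intro α hα β hβ h
    rcases lt_trichotomy α β with h2 | h2 | h2
    · exact absurd h (lt_col hα h2).ne
    · exact h2
    · exact absurd h.symm (lt_col hβ h2).ne
  refine ⟨η, h1, fun γ => if h : γ < η then Classical.choose (hs γ h) else 0, ?_⟩
  constructor
  · exact fun α hα => hm α hα
  · intro γ hγ
    have hγ' : γ < η := hγ
    simp only [dif_pos hγ']
    exact (Classical.choose_spec (hs γ hγ')).1
  · intro α hα
    simp only [dif_pos (hm α hα)]
    have := Classical.choose_spec (hs _ (hm α hα))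
    exact hinj _ this.1 _ hα this.2
  · intro γ hγ
    have hγ' : γ < η := hγ
    simp only [dif_pos hγ']
    exact (Classical.choose_spec (hs γ hγ')).2
  · intro α hα β hβ h
    exact lt_col hα h

/-- an isomorphism is the identity on common initial segments -/
theorem OIso.fix {a a' : Set Ordinal.{0}} {f g : Ordinal.{0} → Ordinal.{0}} (h : OIso a a' f g)
    {δ : Ordinal.{0}} (h1 : ∀ α < δ, α ∈ a) (h2 : ∀ α < δ, α ∈ a') : ∀ α < δ, f α = α := by
  intro α
  induction α using WellFoundedLT.induction with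
  | ind α ih =>
    intro hα
    rcases lt_trichotomy (f α) α with h3 | h3 | h3
    · exfalso
      have h4 := ih (f α) h3 (h3.trans hα)
      have h5 := h.mono _ (h1 _ (h3.trans hα)) _ (h1 _ hα) h3
      rw [h4] at h5
      exact lt_irrefl _ h5
    · exact h3
    · exfalso
      have h4 := h.symm.mono _ (h2 α hα) _ (h.mf α (h1 α hα)) h3
      rw [h.gf α (h1 α hα)] at h4
      have h5 := ih (g α) h4 (h4.trans hα)
      rw [h.fg α (h2 α hα)] at h5
      rw [← h5] at h4
      exact lt_irrefl _ h4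

/-- the trace of `a` on `ω₁` is `δ` -/
def Trace (a : Set Ordinal.{0}) (δ : Ordinal.{0}) : Prop :=
  δ < ω₁ ∧ ∀ α < (ω₁ : Ordinal.{0}), (α ∈ a ↔ α < δ)

theorem Trace.unique {a : Set Ordinal.{0}} {δ δ' : Ordinal.{0}} (h : Trace a δ) (h' : Trace a δ') : δ = δ' := by
  rcases lt_trichotomy δ δ' with h1 | h1 | h1
  · have := (h.2 δ h.1).1 ((h'.2 δ h.1).2 h1)
    exact absurd this (lt_irrefl _)
  · exact h1
  · have := (h'.2 δ' h'.1).1 ((h.2 δ' h'.1).2 h1)
    exact absurd this (lt_irrefl _)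

theorem Trace.fix {a a' : Set Ordinal.{0}} {f g : Ordinal.{0} → Ordinal.{0}} (h : OIso a a' f g)
    {δ : Ordinal.{0}} (h1 : Trace a δ) (h2 : Trace a' δ) : ∀ α < δ, f α = α :=
  h.fix (fun α hα => (h1.2 α (hα.trans h1.1)).2 hα) (fun α hα => (h2.2 α (hα.trans h2.1)).2 hα)

theorem Trace.big {a a' : Set Ordinal.{0}} {f g : Ordinal.{0} → Ordinal.{0}} (h : OIso a a' f g)
    {δ : Ordinal.{0}} (h1 : Trace a δ) (h2 : Trace a' δ) {α : Ordinal.{0}} (hα : α ∈ a) :
    f α < ω₁ ↔ α < ω₁ := by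
  constructor
  · intro hlt
    have h3 := (h2.2 _ hlt).1 (h.mf α hα)
    have h4 := Trace.fix h h1 h2 _ h3
    have h5 := (h1.2 _ hlt).2 h3
    have h6 : f α = α := by
      have := congrArg g h4
      rwa [h.gf _ h5, h.gf _ hα] at this
    rw [← h6]
    exact hlt
  · intro hlt
    have h3 := (h1.2 _ hlt).1 hα
    rw [Trace.fix h h1 h2 _ h3]
    exact hlt

theorem exists_trace {a : Set Ordinal.{0}} (ha : a.Countable)
    (htr : ∀ α ∈ a, α < ω₁ → ∀ β < α, β ∈ a) : ∃ δ, Trace a δ := by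
  have hne : ({α | α ∉ a} : Set Ordinal.{0}).Nonempty := by
    by_contra hc
    rw [Set.not_nonempty_iff_eq_empty] at hc
    apply not_countable_Iio
    apply ha.mono
    intro x _
    by_contra hx
    have : x ∈ {α | α ∉ a} := hx
    rw [hc] at this
    exact this
  obtain ⟨x, hx1, hx2⟩ : ∃ x, x < (ω₁ : Ordinal.{0}) ∧ x ∉ a := by
    by_contra hc
    push Not at hc
    exact not_countable_Iio (ha.mono fun x hx => hc x hx)
  set δ := sInf {α | α ∉ a} with hδ
  have h1 : δ ∉ a := csInf_mem hne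
  have h2 : δ ≤ x := csInf_le' hx2
  refine ⟨δ, lt_of_le_of_lt h2 hx1, fun α hα => ⟨fun h => ?_, fun h => ?_⟩⟩
  · by_contra hc
    rw [not_lt] at hc
    rcases hc.eq_or_lt with h3 | h3
    · rw [← h3] at h; exact h1 h
    · exact h1 (htr α h hα δ h3)
  · by_contra hc
    exact absurd (csInf_le' hc : sInf {α | α ∉ a} ≤ α) (not_le.2 h)

/-- sets of hereditarily finite sets are fixed by isomorphisms -/
theorem real_fix {a a' : Set Ordinal.{0}} {f g : Ordinal.{0} → Ordinal.{0}} (h : OIso a a' f g)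
    (hb : BC a) (hb' : BC a') (h1 : ∀ α < (ω + 1 : Ordinal.{0}), α ∈ a) (h2 : ∀ α < (ω + 1 : Ordinal.{0}), α ∈ a')
    {s : Tr} (hs : InT a s) (hsub : ∀ z ∈ s.den, z ∈ Lz ω) : (s.map f).den = s.den := by
  have hfix := h.fix h1 h2
  have hω : (ω : Ordinal.{0}) < ω + 1 := Order.lt_add_one_iff.2 le_rfl
  have hbω : InT a (bt ω) := inT_bt (h1 _ hω)
  have hsub' : ∀ z ∈ (s.map f).den, z ∈ Lz ω := by
    by_contra hc
    push Not at hc
    have e : Lz ω = ((bt ω).map f).den := by
      rw [bt_map, den_bt, hfix _ hω]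
    rw [e] at hc
    obtain ⟨r', hr', hr1, hr2⟩ := hb'.sub _ _ (h.inT hs) (h.inT hbω) hc
    have hr := h.symm.inT hr'
    have hmm := h.symm.map_map hr'
    have h3 := (iso_mem h hb hb' hr hs).2 (by rw [hmm]; exact hr1)
    have h4 : ¬ (r'.map g).den ∈ (bt ω).den := by
      rw [iso_mem h hb hb' hr hbω, hmm]
      exact hr2
    rw [den_bt] at h4
    exact h4 (hsub _ h3)
  have key : ∀ z ∈ Lz ω, (z ∈ (s.map f).den ↔ z ∈ s.den) := by
    intro z hz
    rw [mem_Lz] at hz
    obtain ⟨u, hu1, hu2, rfl⟩ := exists_tr z hz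
    have hul := hu1.all_lt hu2
    have hlt : u.All (· < ω + 1) := hul.mono fun x hx => hx.trans hω
    have hu : InT a u := ⟨hu1, hlt.mono fun x hx => h1 x hx⟩
    have hmap : u.map f = u := by
      obtain ⟨α, φ, ch⟩ := u
      simp only [Tr.map, Tr.mk.injEq, true_and]
      exact ⟨hfix _ hlt.1, Fo.map_id' (p := (· < ω + 1)) hfix hlt.2⟩
    rw [iso_mem h hb hb' hu hs, hmap]
  ext z
  constructor
  · intro hz
    exact (key z (hsub' z hz)).1 hz
  · intro hz
    exact (key z (hsub z hz)).2 hz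

end Pool.H46VL
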