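import Mathlib
import Pool.Agent.H46.VL.Trace

set_option autoImplicit false

namespace Pool.H46VL

open Ordinal Cardinal

/-- sets of hereditarily finite sets (reals) -/
def R : Set ZFSet.{0} := {x | ∀ z ∈ x, z ∈ Lz ω}

theorem le_of_iso {a : Set Ordinal.{0}} {η κ : Ordinal.{0}} {f g : Ordinal.{0} → Ordinal.{0}}
    (h : OIso a (Set.Iio η) f g) (hκ : ∀ α < κ, α ∈ a) : ∀ α < κ, α ∈ Set.Iio η := by
  have key : ∀ α < κ, α ≤ f α := by
    intro α
    induction α using WellFoundedLT.induction with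
    | ind α ih =>
      intro hα
      by_contra hc
      rw [not_le] at hc
      have h1 := ih (f α) hc (hc.trans hα)
      have h2 := h.mono _ (hκ _ (hc.trans hα)) _ (hκ _ hα) hc
      exact absurd h1 (not_le.2 h2)
  intro α hα
  exact lt_of_le_of_lt (key α hα) (h.mf α (hκ α hα))

theorem omega_add_one_countable : (Set.Iio (ω + 1 : Ordinal.{0})).Countable :=
  countable_Iio_iff.2 (add_one_lt_omega_one Ordinal.omega0_lt_omega_one)

/-- Under `V = L` every real is in `L_ρ` for some countable `ρ`. -/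
theorem real_in_L (hVL : VeqL) {x : ZFSet.{0}} (hx : x ∈ R) : ∃ ρ < (ω₁ : Ordinal.{0}), x ∈ L ρ := by
  obtain ⟨α, hα⟩ := hVL x
  obtain ⟨t, ht1, _, rfl⟩ := exists_tr x hα
  set X0 : ℕ → Fo Ordinal.{0} → Ordinal.{0} := fun _ _ => 0
  set A : Set Ordinal.{0} := t.labset ∪ Set.Iio (ω + 1) with hA
  have hAc : A.Countable := t.labset_finite.countable.union omega_add_one_countable
  have hac := hull_countable (G := op X0) hAc
  have hcl := cl_hull (G := op X0) A
  have hb := bc_of_cl hcl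
  obtain ⟨η, hη, g, hiso⟩ := exists_collapse hac
  have hb' := bc_Iio η
  have h1 : ∀ α < (ω + 1 : Ordinal.{0}), α ∈ hull (op X0) A := fun α hα => subset_hull A (Or.inr hα)
  have h2 := le_of_iso hiso h1
  have ht : InT (hull (op X0) A) t := ⟨ht1, Tr.all_iff.2 fun x hx => subset_hull A (Or.inl hx)⟩
  have h3 := real_fix hiso hb hb' h1 h2 ht hx
  refine ⟨η, hη, ?_⟩
  rw [← h3]
  have h4 := hiso.inT ht
  exact Tr.den_mem_L h4.1 h4.lab

theorem countable_L {ρ : Ordinal.{0}} (hρ : ρ < ω₁) : (L ρ).Countable := by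
  have h1 := countable_Iio_iff.2 hρ
  have h2 : (L ρ) ⊆ (fun q : Ordinal.{0} × Fml × Fo Ordinal.{0} => (Tr.mk q.1 q.2.1 q.2.2).den) ''
      ((Set.Iio ρ) ×ˢ ((Set.univ : Set Fml) ×ˢ {F : Fo Ordinal.{0} | F.All (· ∈ Set.Iio ρ)})) := by
    intro x hx
    obtain ⟨t, ht1, ht2, rfl⟩ := exists_tr x hx
    refine ⟨(t.lab, t.fml, t.ch), ⟨ht2, Set.mem_univ _, ?_⟩, rfl⟩
    exact (ht1.all_lt ht2).2
  exact ((h1.prod (Set.countable_univ.prod (Fo.countable_all h1))).image _).mono h2

theorem mk_Iio_omega_one : #(Set.Iio (ω₁ : Ordinal.{0})) = Cardinal.aleph.{1} 1 := by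
  rw [Cardinal.mk_Iio_ordinal, Ordinal.card_omega, Cardinal.lift_aleph]
  simp

theorem mk_R_le (hVL : VeqL) : #R ≤ Cardinal.aleph.{1} 1 := by
  have h1 : ∀ x : R, ∃ ρ : Set.Iio (ω₁ : Ordinal.{0}), x.1 ∈ L ρ.1 := by
    intro x
    obtain ⟨ρ, h1, h2⟩ := real_in_L hVL x.2
    exact ⟨⟨ρ, h1⟩, h2⟩
  choose ρ hρ using h1
  have h2 : ∀ r : Set.Iio (ω₁ : Ordinal.{0}), ∃ c : L r.1 → ℕ, Function.Injective c := by
    intro r
    haveI := (countable_L r.2).to_subtype
    exact exists_injective_nat _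
  choose c hc using h2
  have hinj : Function.Injective (fun x : R => ((ρ x, c (ρ x) ⟨x.1, hρ x⟩) : Set.Iio (ω₁ : Ordinal.{0}) × ℕ)) := by
    intro x y hxy
    simp only [Prod.mk.injEq] at hxy
    obtain ⟨h3, h4⟩ := hxy
    have h5 : ∀ (r s : Set.Iio (ω₁ : Ordinal.{0})) (hr : x.1 ∈ L r.1) (hs : y.1 ∈ L s.1), r = s →
        c r ⟨x.1, hr⟩ = c s ⟨y.1, hs⟩ → x.1 = y.1 := by
      intro r s hr hs hrs he
      subst hrs
      have := hc r he
      simpa using this
    exact Subtype.ext (h5 _ _ _ _ h3 h4)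
  have h3 := Cardinal.mk_le_of_injective hinj
  rw [Cardinal.mk_prod, mk_Iio_omega_one] at h3
  refine h3.trans ?_
  simp only [Cardinal.lift_aleph, Cardinal.mk_nat, Cardinal.lift_aleph0]
  rw [Cardinal.mul_eq_left (Cardinal.aleph0_le_aleph _) (Cardinal.aleph0_le_aleph _) Cardinal.aleph0_ne_zero]
  simp

/-- the code of a set of natural numbers -/
noncomputable def rcode (r : Set ℕ) : ZFSet.{0} := ZFSet.range (fun n : r => Lz (n : ℕ))

theorem mem_rcode {r : Set ℕ} {z : ZFSet.{0}} : z ∈ rcode r ↔ ∃ n ∈ r, Lz ((n : ℕ) : Ordinal.{0}) = z := by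
  rw [rcode, ZFSet.mem_range]
  simp

theorem rcode_mem (r : Set ℕ) : rcode r ∈ R := by
  intro z hz
  rw [mem_rcode] at hz
  obtain ⟨n, _, rfl⟩ := hz
  rw [mem_Lz]
  exact Lz_mem (Ordinal.natCast_lt_omega0 n)

theorem rcode_inj : Function.Injective rcode := by
  intro r s h
  ext n
  have h1 : Lz ((n : ℕ) : Ordinal.{0}) ∈ rcode r ↔ Lz ((n : ℕ) : Ordinal.{0}) ∈ rcode s := by rw [h]
  have h2 : ∀ q : Set ℕ, Lz ((n : ℕ) : Ordinal.{0}) ∈ rcode q ↔ n ∈ q := by
    intro q
    rw [mem_rcode]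
    constructor
    · rintro ⟨m, hm, he⟩
      have := Lz_inj he
      rw [Nat.cast_inj] at this
      rwa [← this]
    · intro hn
      exact ⟨n, hn, rfl⟩
  rwa [h2, h2] at h1

/-- `V = L` implies the continuum hypothesis. -/
theorem ch_of_VeqL (hVL : VeqL) : Cardinal.continuum.{0} = Cardinal.aleph.{0} 1 := by
  apply le_antisymm
  · have hinj : Function.Injective (fun r : ULift.{1} (Set ℕ) => (⟨rcode r.down, rcode_mem _⟩ : R)) := by
      intro r s h
      have := congrArg Subtype.val h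
      exact ULift.ext _ _ (rcode_inj this)
    have h1 := Cardinal.mk_le_of_injective hinj
    have h2 := mk_R_le hVL
    rw [Cardinal.mk_uLift, Cardinal.mk_set, Cardinal.mk_nat, Cardinal.two_power_aleph0] at h1
    have h3 : Cardinal.lift.{1} Cardinal.continuum.{0} ≤ Cardinal.lift.{1} (Cardinal.aleph.{0} 1) := by
      rw [Cardinal.lift_aleph, Ordinal.lift_one]
      exact h1.trans h2
    exact Cardinal.lift_le.1 h3
  · exact Cardinal.aleph_one_le_continuum

/-- there is an injective indexing of the reals by countable ordinals -/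
theorem exists_idx (hVL : VeqL) : ∃ idx : ZFSet.{0} → Ordinal.{0}, (∀ x, idx x < ω₁) ∧
    ∀ x ∈ R, ∀ y ∈ R, idx x = idx y → x = y := by
  classical
  have h1 : #R ≤ #(Set.Iio (ω₁ : Ordinal.{0})) := by
    rw [mk_Iio_omega_one]
    exact mk_R_le hVL
  obtain ⟨e⟩ := h1
  refine ⟨fun x => if h : x ∈ R then (e ⟨x, h⟩).1 else 0, ?_, ?_⟩
  · intro x
    by_cases h : x ∈ R
    · simp only [dif_pos h]
      exact (e ⟨x, h⟩).2
    · simp only [dif_neg h]
      exact Ordinal.omega_pos 1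
  · intro x hx y hy h
    simp only [dif_pos hx, dif_pos hy] at h
    have := e.injective (Subtype.ext h)
    exact congrArg Subtype.val this

theorem not_countable_R : ¬ R.Countable := by
  intro h
  haveI := h.to_subtype
  have h1 : Function.Injective (fun r : Set ℕ => (⟨rcode r, rcode_mem r⟩ : R)) := by
    intro r s h
    exact rcode_inj (congrArg Subtype.val h)
  have h2 : Countable (Set ℕ) := h1.countable
  obtain ⟨c, hc⟩ := exists_injective_nat (Set ℕ)
  exact Function.cantor_injective c hc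

theorem exists_big_real {idx : ZFSet.{0} → Ordinal.{0}}
    (hinj : ∀ x ∈ R, ∀ y ∈ R, idx x = idx y → x = y) {δ : Ordinal.{0}} (hδ : δ < ω₁) :
    ∃ x ∈ R, δ ≤ idx x := by
  by_contra hc
  push Not at hc
  apply not_countable_R
  have h1 := countable_Iio_iff.2 hδ
  have h2 : Set.MapsTo idx R (Set.Iio δ) := fun x hx => hc x hx
  exact Set.MapsTo.countable_of_injOn h2 (fun x hx y hy h => hinj x hx y hy h) h1

end Pool.H46VL
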