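import Mathlib
import Pool.Agent.H46.VL.Ext

set_option autoImplicit false

namespace Pool.H46VL

open Ordinal Cardinal

open Classical in
/-- the extra operations -/
noncomputable def XX (idx : ZFSet.{0} → Ordinal.{0}) (C : Set Ordinal.{0})
    (hh : ℕ → Ordinal.{0} → Ordinal.{0}) : ℕ → Fo Ordinal.{0} → Ordinal.{0}
  | 0, .cons α φ ch _ => if (Tr.mk α φ ch).den ∈ R then idx (Tr.mk α φ ch).den else 0
  | 1, .cons α φ ch (.cons β ψ ch' _) =>
      sInf {γ | γ < ω₁ ∧ γ ∈ C ∧ ¬ (Lz γ ∈ (Tr.mk α φ ch).den ↔ Lz γ ∈ (Tr.mk β ψ ch').den)}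
  | n + 2, .cons α _ _ _ => if α < ω₁ then hh n α else 0
  | 0, .nil => 0
  | 1, .nil => 0
  | 1, .cons _ _ _ .nil => 0
  | _ + 2, .nil => 0

/-- assumptions on the data of the extra operations -/
structure XH (idx : ZFSet.{0} → Ordinal.{0}) (hh : ℕ → Ordinal.{0} → Ordinal.{0}) : Prop where
  idx_lt : ∀ x, idx x < ω₁
  idx_inj : ∀ x ∈ R, ∀ y ∈ R, idx x = idx y → x = y
  hh_lt : ∀ n, ∀ α < (ω₁ : Ordinal.{0}), hh n α < ω₁
  hh_tr : ∀ α < (ω₁ : Ordinal.{0}), ∀ β < α, ∃ n, hh n α = β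
  hh_om : ∃ n, hh n 0 = ω

variable {idx : ZFSet.{0} → Ordinal.{0}} {C : Set Ordinal.{0}} {hh : ℕ → Ordinal.{0} → Ordinal.{0}}

theorem cl_hh {a : Set Ordinal.{0}} (ha : Cl (op (XX idx C hh)) a) (n : ℕ) {α : Ordinal.{0}} (hα : α ∈ a)
    (h1 : α < ω₁) : hh n α ∈ a := by
  have := (ha (.ex (n + 2)) ((bt α).cons .nil) ((inT_bt hα).cons inF_nil)).1
  simpa [op, XX, bt, Tr.cons, h1] using this

theorem cl_trace (hX : XH idx hh) {a : Set Ordinal.{0}} (ha : Cl (op (XX idx C hh)) a) (hac : a.Countable) :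
    ∃ δ, Trace a δ ∧ ω < δ := by
  obtain ⟨δ, hδ⟩ := exists_trace hac (by
    intro α hα h1 β hβ
    obtain ⟨n, hn⟩ := hX.hh_tr α h1 β hβ
    rw [← hn]
    exact cl_hh ha n hα h1)
  refine ⟨δ, hδ, ?_⟩
  obtain ⟨n, hn⟩ := hX.hh_om
  have h1 : (ω : Ordinal.{0}) ∈ a := by
    rw [← hn]
    exact cl_hh ha n (cl_zero ha) (Ordinal.omega_pos 1)
  exact (hδ.2 _ Ordinal.omega0_lt_omega_one).1 h1

theorem cl_idx {a : Set Ordinal.{0}} (ha : Cl (op (XX idx C hh)) a) {s : Tr} (hs : InT a s) (hR : s.den ∈ R) :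
    idx s.den ∈ a := by
  have := (ha (.ex 0) (s.cons .nil) (hs.cons inF_nil)).1
  simpa [op, XX, bt, Tr.cons, hR] using this

theorem cl_diff {a : Set Ordinal.{0}} (ha : Cl (op (XX idx C hh)) a) {s t : Tr} (hs : InT a s) (ht : InT a t) :
    sInf {γ | γ < ω₁ ∧ γ ∈ C ∧ ¬ (Lz γ ∈ s.den ↔ Lz γ ∈ t.den)} ∈ a := by
  have := (ha (.ex 1) (s.cons (t.cons .nil)) (hs.cons (ht.cons inF_nil))).1
  simpa [op, XX, bt, Tr.cons] using this

theorem trace_le {a : Set Ordinal.{0}} {δ : Ordinal.{0}} (h : Trace a δ) (hω : ω < δ) :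
    ∀ α < (ω + 1 : Ordinal.{0}), α ∈ a := by
  intro α hα
  have h1 : α < δ := lt_of_le_of_lt (Order.lt_add_one_iff.1 hα) hω
  exact (h.2 α (h1.trans h.1)).2 h1

theorem lz_iff {a a' : Set Ordinal.{0}} {f g : Ordinal.{0} → Ordinal.{0}} (h : OIso a a' f g)
    (hb : BC a) (hb' : BC a') {δ : Ordinal.{0}} (h1 : Trace a δ) (h2 : Trace a' δ) {s : Tr} (hs : InT a s)
    {γ : Ordinal.{0}} (hγ : γ < δ) : Lz γ ∈ s.den ↔ Lz γ ∈ (s.map f).den := by
  have h3 : InT a (bt γ) := inT_bt ((h1.2 γ (hγ.trans h1.1)).2 hγ)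
  have h4 := iso_mem h hb hb' h3 hs
  rw [bt_map, den_bt, den_bt, Trace.fix h h1 h2 γ hγ] at h4
  exact h4

theorem real_iff {a a' : Set Ordinal.{0}} {f g : Ordinal.{0} → Ordinal.{0}} (h : OIso a a' f g)
    (hb : BC a) (hb' : BC a') {δ : Ordinal.{0}} (h1 : Trace a δ) (h2 : Trace a' δ) (hω : ω < δ)
    {s : Tr} (hs : InT a s) : (s.map f).den ∈ R ↔ s.den ∈ R := by
  have e1 := trace_le h1 hω
  have e2 := trace_le h2 hω
  constructor
  · intro hR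
    have := real_fix h.symm hb' hb e2 e1 (h.inT hs) hR
    rw [h.map_map hs] at this
    rw [this]
    exact hR
  · intro hR
    rw [real_fix h hb hb' e1 e2 hs hR]
    exact hR

theorem xinv (hX : XH idx hh) {a a' : Set Ordinal.{0}} {f g : Ordinal.{0} → Ordinal.{0}} (h : OIso a a' f g)
    (ha : Cl (op (XX idx C hh)) a) (ha' : Cl (op (XX idx C hh)) a') {δ : Ordinal.{0}}
    (h1 : Trace a δ) (h2 : Trace a' δ) (hω : ω < δ) : XInv (XX idx C hh) a f := by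
  have hb := bc_of_cl ha
  have hb' := bc_of_cl ha'
  have hfix := Trace.fix h h1 h2
  have h0 : f 0 = 0 := h.zero (cl_zero ha) (cl_zero ha')
  intro n F hF
  match n, F, hF with
  | 0, .nil, _ => simp [XX, Fo.map, h0]
  | 1, .nil, _ => simp [XX, Fo.map, h0]
  | n + 2, .nil, _ => simp [XX, Fo.map, h0]
  | 1, .cons _ _ _ .nil, _ => simp [XX, Fo.map, h0]
  | 0, .cons α φ ch sib, hF =>
    have hs : InT a ⟨α, φ, ch⟩ := ⟨⟨hF.1.1, hF.1.2.1⟩, ⟨hF.2.1, hF.2.2.1⟩⟩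
    have h3 := real_iff h hb hb' h1 h2 hω hs
    simp only [Tr.map] at h3
    simp only [XX, Fo.map]
    by_cases hR : (Tr.mk α φ ch).den ∈ R
    · rw [if_pos hR, if_pos (h3.2 hR)]
      have h4 := real_fix h hb hb' (trace_le h1 hω) (trace_le h2 hω) hs hR
      simp only [Tr.map] at h4
      rw [h4]
      have h5 := cl_idx ha hs hR
      have h6 := (h1.2 _ (hX.idx_lt _)).1 h5
      rw [hfix _ h6]
    · rw [if_neg hR, if_neg (fun hc => hR (h3.1 hc)), h0]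
  | n + 2, .cons α φ ch sib, hF =>
    simp only [XX, Fo.map]
    have hα : α ∈ a := hF.2.1
    have h3 := Trace.big h h1 h2 hα
    by_cases hlt : α < ω₁
    · rw [if_pos hlt, if_pos (h3.2 hlt)]
      have h4 := (h1.2 _ hlt).1 hα
      rw [hfix _ h4]
      have h5 := cl_hh ha n hα hlt
      have h6 := (h1.2 _ (hX.hh_lt n α hlt)).1 h5
      rw [hfix _ h6]
    · rw [if_neg hlt, if_neg (fun hc => hlt (h3.1 hc)), h0]
  | 1, .cons α φ ch (.cons β ψ ch' sib), hF =>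
    have hs : InT a ⟨α, φ, ch⟩ := ⟨⟨hF.1.1, hF.1.2.1⟩, ⟨hF.2.1, hF.2.2.1⟩⟩
    have ht : InT a ⟨β, ψ, ch'⟩ := ⟨⟨hF.1.2.2.1, hF.1.2.2.2.1⟩, ⟨hF.2.2.2.1, hF.2.2.2.2.1⟩⟩
    simp only [XX, Fo.map]
    set S : Set Ordinal.{0} := {γ | γ < ω₁ ∧ γ ∈ C ∧ ¬ (Lz γ ∈ (Tr.mk α φ ch).den ↔ Lz γ ∈ (Tr.mk β ψ ch').den)} with hS
    set S' : Set Ordinal.{0} := {γ | γ < ω₁ ∧ γ ∈ C ∧ ¬ (Lz γ ∈ (Tr.mk (f α) φ (ch.map f)).den ↔
      Lz γ ∈ (Tr.mk (f β) ψ (ch'.map f)).den)} with hS'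
    have hSa : sInf S ∈ a := cl_diff ha hs ht
    have hSa' : sInf S' ∈ a' := cl_diff ha' (h.inT hs) (h.inT ht)
    have key : ∀ γ < δ, (γ ∈ S ↔ γ ∈ S') := by
      intro γ hγ
      have e1 := lz_iff h hb hb' h1 h2 hs hγ
      have e2 := lz_iff h hb hb' h1 h2 ht hγ
      simp only [Tr.map] at e1 e2
      simp only [hS, hS', Set.mem_setOf_eq, e1, e2]
    by_cases hne : S.Nonempty
    · have h3 : sInf S ∈ S := csInf_mem hne
      have h4 : sInf S < δ := (h1.2 _ h3.1).1 hSa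
      have h5 : sInf S ∈ S' := (key _ h4).1 h3
      have h6 : sInf S' ∈ S' := csInf_mem ⟨_, h5⟩
      have h7 : sInf S' < δ := (h2.2 _ h6.1).1 hSa'
      have h8 : sInf S' ∈ S := (key _ h7).2 h6
      have h9 : sInf S = sInf S' := le_antisymm (csInf_le' h8) (csInf_le' h5)
      rw [← h9, hfix _ h4]
    · have hne' : ¬ S'.Nonempty := by
        intro hne'
        have h6 : sInf S' ∈ S' := csInf_mem hne'
        have h7 : sInf S' < δ := (h2.2 _ h6.1).1 hSa'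
        exact hne ⟨_, (key _ h7).2 h6⟩
      rw [Set.not_nonempty_iff_eq_empty] at hne hne'
      rw [hne, hne', Ordinal.sInf_empty, h0]

/-- the order type of a closed set is bounded in terms of its trace -/
theorem otp_bound (hX : XH idx hh) {a : Set Ordinal.{0}} {f g : Ordinal.{0} → Ordinal.{0}} {η : Ordinal.{0}}
    (h : OIso a (Set.Iio η) f g) (ha : Cl (op (XX idx C hh)) a) {δ : Ordinal.{0}}
    (h1 : Trace a δ) (hω : ω < δ) {x : ZFSet.{0}} (hx : x ∈ R) (hδ : δ ≤ idx x) {ρ : Ordinal.{0}}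
    (hρ : x ∈ L ρ) : η < ρ := by
  by_contra hc
  rw [not_lt] at hc
  have h2 := L_mono hc hρ
  obtain ⟨v, hv1, hv2, rfl⟩ := exists_tr x h2
  have hv : InT (Set.Iio η) v := ⟨hv1, hv1.all_lt hv2⟩
  have e1 := trace_le h1 hω
  have e2 := le_of_iso h e1
  have h3 := real_fix h.symm (bc_Iio η) (bc_of_cl ha) e2 e1 hv hx
  have h4 := h.symm.inT hv
  have h5 := cl_idx ha h4 (by rw [h3]; exact hx)
  rw [h3] at h5
  have h6 := (h1.2 _ (hX.idx_lt _)).1 h5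
  exact absurd h6 (not_lt.2 hδ)

end Pool.H46VL
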