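import Mathlib
import Pool.Agent.H46.VL.Ops

set_option autoImplicit false

namespace Pool.H46VL

open Ordinal Cardinal

/-! ### coding -/

instance small_hat (J : Set Ordinal.{0}) :
    Small.{0} ({γ : Ordinal.{0} | γ ∈ J ∧ γ < (ω₁ : Ordinal.{0})} : Set Ordinal.{0}) :=
  small_subset (s := Set.Iio (ω₁ : Ordinal.{0})) (fun _ h => h.2)

/-- code of a set of countable ordinals -/
noncomputable def hat (J : Set Ordinal.{0}) : ZFSet.{0} :=
  ZFSet.range (fun γ : ({γ : Ordinal.{0} | γ ∈ J ∧ γ < (ω₁ : Ordinal.{0})} : Set Ordinal.{0}) => Lz γ.1)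

theorem mem_hat {J : Set Ordinal.{0}} {z : ZFSet.{0}} : z ∈ hat J ↔ ∃ γ ∈ J, γ < ω₁ ∧ Lz γ = z := by
  rw [hat, ZFSet.mem_range]
  constructor
  · rintro ⟨⟨γ, h1, h2⟩, rfl⟩
    exact ⟨γ, h1, h2, rfl⟩
  · rintro ⟨γ, h1, h2, rfl⟩
    exact ⟨⟨γ, h1, h2⟩, rfl⟩

theorem lz_mem_hat {J : Set Ordinal.{0}} {γ : Ordinal.{0}} (h : γ < ω₁) : Lz γ ∈ hat J ↔ γ ∈ J := by
  rw [mem_hat]
  constructor
  · rintro ⟨γ', h1, _, h3⟩
    rwa [← Lz_inj h3]
  · intro h1
    exact ⟨γ, h1, h, rfl⟩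

/-- data used in the construction -/
structure Data (B : Type) where
  β : B → Ordinal.{0}
  β_lt : ∀ b, β b < ω₁
  β_inj : Function.Injective β
  idx : ZFSet.{0} → Ordinal.{0}
  idx_lt : ∀ x, idx x < ω₁
  idx_inj : ∀ x ∈ R, ∀ y ∈ R, idx x = idx y → x = y
  e : Ordinal.{0} → ℕ → Ordinal.{0}
  e_lt : ∀ α, 0 < α → α < ω₁ → ∀ i, e α i < α
  e_zero : ∀ i, e 0 i = 0
  e_surj : ∀ α < (ω₁ : Ordinal.{0}), ∀ γ < α, ∃ i, e α i = γ
  pos : Ordinal.{0} → ℕ → Ordinal.{0}
  pos_lt : ∀ α < (ω₁ : Ordinal.{0}), ∀ m, pos α m < ω₁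
  pos_inj : ∀ α < (ω₁ : Ordinal.{0}), ∀ α' < (ω₁ : Ordinal.{0}), ∀ m m', pos α m = pos α' m' → α = α' ∧ m = m'
  dec : Ordinal.{0} → Ordinal.{0}
  dec_lt : ∀ γ, dec γ < ω₁
  dec_pos : ∀ α < (ω₁ : Ordinal.{0}), ∀ m, dec (pos α m) = α

variable {B : Type} (D : Data B)

namespace Data

noncomputable def hh (n : ℕ) (α : Ordinal.{0}) : Ordinal.{0} :=
  match (Nat.unpair n).1 with
  | 0 => D.e α (Nat.unpair n).2
  | 1 => D.pos α (Nat.unpair n).2
  | 2 => D.dec α
  | _ => ω

/-- positions with a positive tag -/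
def C : Set Ordinal.{0} := {γ | ∃ α < (ω₁ : Ordinal.{0}), ∃ t n : ℕ, γ = D.pos α (Nat.pair (t + 1) n)}

noncomputable abbrev X : ℕ → Fo Ordinal.{0} → Ordinal.{0} := XX D.idx D.C D.hh

noncomputable abbrev G : Op → Fo Ordinal.{0} → Tr := op D.X

theorem xh : XH D.idx D.hh where
  idx_lt := D.idx_lt
  idx_inj := D.idx_inj
  hh_lt := by
    intro n α hα
    unfold hh
    split
    · rcases eq_or_ne α 0 with rfl | h
      · rw [D.e_zero]; exact Ordinal.omega_pos 1
      · exact (D.e_lt α (pos_iff_ne_zero.2 h) hα _).trans hα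
    · exact D.pos_lt α hα _
    · exact D.dec_lt α
    · exact Ordinal.omega0_lt_omega_one
  hh_tr := by
    intro α hα γ hγ
    obtain ⟨i, hi⟩ := D.e_surj α hα γ hγ
    refine ⟨Nat.pair 0 i, ?_⟩
    simp [hh, hi]
  hh_om := by
    refine ⟨Nat.pair 3 0, ?_⟩
    simp [hh]

theorem cl_pos {a : Set Ordinal.{0}} (ha : Cl D.G a) {α : Ordinal.{0}} (hα : α ∈ a) (h : α < ω₁) (m : ℕ) :
    D.pos α m ∈ a := by
  have := cl_hh ha (Nat.pair 1 m) hα h
  simpa [hh] using this

theorem cl_dec {a : Set Ordinal.{0}} (ha : Cl D.G a) {α : Ordinal.{0}} (hα : α ∈ a) (h : α < ω₁) :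
    D.dec α ∈ a := by
  have := cl_hh ha (Nat.pair 2 0) hα h
  simpa [hh] using this

end Data

/-- the canonical tree denoting `x` -/
noncomputable def tm (x : ZFSet.{0}) : Tr := pick (fun t => t.Good ∧ t.den = x)

theorem tm_spec (hVL : VeqL) (x : ZFSet.{0}) : (tm x).Good ∧ (tm x).den = x := by
  obtain ⟨α, hα⟩ := hVL x
  obtain ⟨t, ht1, _, ht3⟩ := exists_tr x hα
  exact pick_spec (P := fun t => t.Good ∧ t.den = x) ⟨t, ht1, ht3⟩

/-- code of a list of moves -/
def codeL (l : List (B → ℕ)) : Set Ordinal.{0} :=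
  {γ | ∃ (b : B) (t n : ℕ) (c : B → ℕ), l[t]? = some c ∧ c b = n ∧ γ = D.pos (D.β b) (Nat.pair t n)}

theorem pos_mem_codeL {l : List (B → ℕ)} {b : B} {t n : ℕ} :
    D.pos (D.β b) (Nat.pair t n) ∈ codeL D l ↔ ∃ c, l[t]? = some c ∧ c b = n := by
  constructor
  · rintro ⟨b', t', n', c, h1, h2, h3⟩
    obtain ⟨h4, h5⟩ := D.pos_inj _ (D.β_lt b) _ (D.β_lt b') _ _ h3
    have h6 := D.β_inj h4
    rw [Nat.pair_eq_pair] at h5
    obtain ⟨rfl, rfl⟩ := h5
    subst h6
    exact ⟨c, h1, h2⟩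
  · rintro ⟨c, h1, h2⟩
    exact ⟨b, t, n, c, h1, h2, rfl⟩

/-- code of a strategy of ONE -/
noncomputable def codeS (s : List (B → ℕ) → (B → ℕ)) : ZFSet.{0} :=
  ZFSet.range (fun l : List (B → ℕ) => hat (codeL D (s l :: l)))

/-- code of a family of sequences -/
def codeY (y : Ordinal.{0} → ℕ → ℕ) : Set Ordinal.{0} :=
  {γ | ∃ ξ < (ω₁ : Ordinal.{0}), ∃ n : ℕ, γ = D.pos ξ (Nat.pair n (y ξ n))}

theorem pos_mem_codeY {y : Ordinal.{0} → ℕ → ℕ} {ξ : Ordinal.{0}} (hξ : ξ < ω₁) {n m : ℕ} :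
    D.pos ξ (Nat.pair n m) ∈ codeY D y ↔ y ξ n = m := by
  constructor
  · rintro ⟨ξ', h1, n', h2⟩
    obtain ⟨h3, h4⟩ := D.pos_inj _ hξ _ h1 _ _ h2
    rw [Nat.pair_eq_pair] at h4
    obtain ⟨rfl, h5⟩ := h4
    rw [h3, h5]
  · intro h
    exact ⟨ξ, hξ, n, by rw [h]⟩

/-! ### the run -/

variable (y : Ordinal.{0} → ℕ → ℕ) (s : List (B → ℕ) → (B → ℕ))

/-- code of the position after the history `l` -/
noncomputable def Jof (l : List (B → ℕ)) : ZFSet.{0} := hat (codeL D (s l :: l))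

/-- the labels known after history `l` -/
noncomputable def Glab (l : List (B → ℕ)) : Set Ordinal.{0} :=
  (tm (hat (codeY D y))).labset ∪ (tm (codeS D s)).labset ∪
    {γ | ∃ i ≤ l.length, γ ∈ (tm (Jof D s (l.take i))).labset}

/-- the least ordinal outside `a` -/
noncomputable def trc (a : Set Ordinal.{0}) : Ordinal.{0} := sInf {α | α ∉ a}

theorem Trace.trc {a : Set Ordinal.{0}} {δ : Ordinal.{0}} (h : Trace a δ) : trc a = δ := by
  apply le_antisymm
  · apply csInf_le'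
    intro hc
    exact absurd ((h.2 δ h.1).1 hc) (lt_irrefl _)
  · apply le_csInf
    · refine ⟨δ, fun hc => ?_⟩
      exact absurd ((h.2 δ h.1).1 hc) (lt_irrefl _)
    · intro x hx
      by_contra hc
      rw [not_le] at hc
      exact hx ((h.2 x (hc.trans h.1)).2 hc)

/-- TWO's move on board `b` after history `l` -/
noncomputable def mv (l : List (B → ℕ)) (b : B) : ℕ :=
  y (D.e (trc (hull D.G ({D.β b} ∪ Glab D y s (l.take (Nat.unpair l.length).1)))) (Nat.unpair l.length).2)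
    l.length + 1

/-- history of TWO's moves -/
noncomputable def hist : ℕ → List (B → ℕ)
  | 0 => []
  | k + 1 => hist k ++ [mv D y s (hist k)]

theorem hist_length (k : ℕ) : (hist D y s k).length = k := by
  induction k with
  | zero => rfl
  | succ k ih => simp [hist, ih]

theorem hist_take {j k : ℕ} (h : j ≤ k) : (hist D y s k).take j = hist D y s j := by
  induction k with
  | zero =>
    have : j = 0 := by omega
    subst this
    rfl
  | succ k ih =>
    rcases Nat.lt_or_ge j (k + 1) with h1 | h1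
    · rw [hist, List.take_append_of_le_length (by rw [hist_length]; omega)]
      exact ih (by omega)
    · have : j = k + 1 := by omega
      subst this
      rw [List.take_of_length_le]
      rw [hist_length]

theorem hist_eq (k : ℕ) : hist D y s k = (List.range k).map (fun n => mv D y s (hist D y s n)) := by
  induction k with
  | zero => rfl
  | succ k ih =>
    rw [hist, List.range_succ, List.map_append, ← ih]
    rfl

theorem Glab_hist (k : ℕ) : Glab D y s (hist D y s k) =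
    (tm (hat (codeY D y))).labset ∪ (tm (codeS D s)).labset ∪
      {γ | ∃ i ≤ k, γ ∈ (tm (Jof D s (hist D y s i))).labset} := by
  unfold Glab
  rw [hist_length]
  congr 1
  ext γ
  constructor
  · rintro ⟨i, h1, h2⟩
    rw [hist_take D y s h1] at h2
    exact ⟨i, h1, h2⟩
  · rintro ⟨i, h1, h2⟩
    refine ⟨i, h1, ?_⟩
    rw [hist_take D y s h1]
    exact h2

theorem Glab_mono : Monotone (fun k => Glab D y s (hist D y s k)) := by
  intro j k hjk
  simp only [Glab_hist]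
  apply Set.union_subset_union_right
  rintro γ ⟨i, h1, h2⟩
  exact ⟨i, h1.trans hjk, h2⟩

theorem Glab_countable (k : ℕ) : (Glab D y s (hist D y s k)).Countable := by
  rw [Glab_hist]
  refine ((tm (hat (codeY D y))).labset_finite.countable.union (tm (codeS D s)).labset_finite.countable).union ?_
  have : {γ | ∃ i ≤ k, γ ∈ (tm (Jof D s (hist D y s i))).labset} ⊆
      ⋃ i, (tm (Jof D s (hist D y s i))).labset := by
    rintro γ ⟨i, _, h⟩
    exact Set.mem_iUnion.2 ⟨i, h⟩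
  exact (Set.countable_iUnion fun i => (Tr.labset_finite _).countable).mono this

/-- the closed set of board `b` at time `k` -/
noncomputable def ak (b : B) (k : ℕ) : Set Ordinal.{0} := hull D.G ({D.β b} ∪ Glab D y s (hist D y s k))

theorem ak_mono (b : B) : Monotone (ak D y s b) := fun _ _ h =>
  hull_mono (Set.union_subset_union_right _ (Glab_mono D y s h))

theorem ak_cl (b : B) (k : ℕ) : Cl D.G (ak D y s b k) := cl_hull _

theorem ak_countable (b : B) (k : ℕ) : (ak D y s b k).Countable :=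
  hull_countable ((Set.countable_singleton _).union (Glab_countable D y s k))

/-- the closed set of board `b` -/
noncomputable def aw (b : B) : Set Ordinal.{0} := ⋃ k, ak D y s b k

theorem aw_cl (b : B) : Cl D.G (aw D y s b) := cl_iUnion (ak_mono D y s b) (ak_cl D y s b)

theorem aw_countable (b : B) : (aw D y s b).Countable := Set.countable_iUnion (ak_countable D y s b)

theorem Glab_sub_aw (b : B) (k : ℕ) : Glab D y s (hist D y s k) ⊆ aw D y s b := fun _ hγ =>
  Set.mem_iUnion.2 ⟨k, subset_hull _ (Or.inr hγ)⟩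

theorem β_mem_aw (b : B) : D.β b ∈ aw D y s b := Set.mem_iUnion.2 ⟨0, subset_hull _ (Or.inl rfl)⟩

theorem inT_of_labset {a : Set Ordinal.{0}} {t : Tr} (hg : t.Good) (h : t.labset ⊆ a) : InT a t :=
  ⟨hg, Tr.all_iff.2 fun _ hx => h hx⟩

theorem inT_Y (hVL : VeqL) (b : B) : InT (aw D y s b) (tm (hat (codeY D y))) :=
  inT_of_labset (tm_spec hVL _).1 fun γ hγ => Glab_sub_aw D y s b 0 (by
    rw [Glab_hist]; exact Or.inl (Or.inl hγ))

theorem inT_S (hVL : VeqL) (b : B) : InT (aw D y s b) (tm (codeS D s)) :=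
  inT_of_labset (tm_spec hVL _).1 fun γ hγ => Glab_sub_aw D y s b 0 (by
    rw [Glab_hist]; exact Or.inl (Or.inr hγ))

theorem inT_J (hVL : VeqL) (b : B) (k : ℕ) : InT (aw D y s b) (tm (Jof D s (hist D y s k))) :=
  inT_of_labset (tm_spec hVL _).1 fun γ hγ => Glab_sub_aw D y s b k (by
    rw [Glab_hist]; exact Or.inr ⟨k, le_rfl, hγ⟩)

/-- the play of ONE on board `b` -/
noncomputable def xr (b : B) (n : ℕ) : ℕ := s (hist D y s n) b

end Pool.H46VL
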