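import Mathlib
import Pool.Agent.H46.VL.Game

set_option autoImplicit false

namespace Pool.H46VL

open Ordinal Cardinal

theorem Fo.labset_map (f : Ordinal.{0} → Ordinal.{0}) : ∀ F : Fo Ordinal.{0}, (F.map f).labset = f '' F.labset
  | .nil => by simp [Fo.map, Fo.labset]
  | .cons a φ ch sib => by
      simp only [Fo.map, Fo.labset, Fo.labset_map f ch, Fo.labset_map f sib, Set.image_union,
        Set.image_singleton]

theorem Tr.labset_map (f : Ordinal.{0} → Ordinal.{0}) (t : Tr) : (t.map f).labset = f '' t.labset := by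
  simp only [Tr.labset, Tr.map, Fo.labset_map, Set.image_union, Set.image_singleton]

variable {B : Type} (D : Data B)

theorem op_can_cons {X : ℕ → Fo Ordinal.{0} → Ordinal.{0}} (t : Tr) (F : Fo Ordinal.{0}) :
    op X .can (t.cons F) = pick (fun u => u.Good ∧ u.den = t.den) := rfl

theorem cons_map (t : Tr) (F : Fo Ordinal.{0}) (f : Ordinal.{0} → Ordinal.{0}) :
    (t.cons F).map f = (t.map f).cons (F.map f) := rfl

theorem tm_map (hVL : VeqL) {X : ℕ → Fo Ordinal.{0} → Ordinal.{0}} {a a' : Set Ordinal.{0}}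
    {f g : Ordinal.{0} → Ordinal.{0}} (h : OIso a a' f g)
    (ha : Cl (op X) a) (ha' : Cl (op X) a') (hX : XInv X a f)
    {x x' : ZFSet.{0}} (hx : InT a (tm x)) (he : ((tm x).map f).den = x') : (tm x).map f = tm x' := by
  have h1 := op_map h ha ha' hX .can ((tm x).cons .nil) (hx.cons inF_nil)
  rw [cons_map, op_can_cons, op_can_cons, he, (tm_spec hVL x).2] at h1
  exact h1.symm

theorem pos_mem_codeL' {l : List (B → ℕ)} {α : Ordinal.{0}} (hα : α < ω₁) {t n : ℕ} :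
    D.pos α (Nat.pair t n) ∈ codeL D l ↔ ∃ b, D.β b = α ∧ ∃ c, l[t]? = some c ∧ c b = n := by
  constructor
  · rintro ⟨b', t', n', c, h1, h2, h3⟩
    obtain ⟨h4, h5⟩ := D.pos_inj _ hα _ (D.β_lt b') _ _ h3
    rw [Nat.pair_eq_pair] at h5
    obtain ⟨rfl, rfl⟩ := h5
    exact ⟨b', h4.symm, c, h1, h2⟩
  · rintro ⟨b, rfl, c, h1, h2⟩
    exact ⟨b, t, n, c, h1, h2, rfl⟩

theorem hist_get (y : Ordinal.{0} → ℕ → ℕ) (s : List (B → ℕ) → (B → ℕ)) (k t : ℕ) (b : B) (n : ℕ) :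
    (∃ c, (hist D y s k)[t]? = some c ∧ c b = n) ↔ t < k ∧ mv D y s (hist D y s t) b = n := by
  rw [hist_eq D y s k, List.getElem?_map]
  rcases Nat.lt_or_ge t k with h | h
  · rw [List.getElem?_range h]
    simp [h]
  · rw [List.getElem?_eq_none (by simpa using h)]
    simp [h]

theorem mv_hist (y : Ordinal.{0} → ℕ → ℕ) (s : List (B → ℕ) → (B → ℕ)) (k : ℕ) (b : B) :
    mv D y s (hist D y s k) b =
      y (D.e (trc (ak D y s b (Nat.unpair k).1)) (Nat.unpair k).2) k + 1 := by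
  rw [mv, hist_length, hist_take D y s (Nat.unpair_left_le k)]
  rfl

theorem codeS_mem (s : List (B → ℕ) → (B → ℕ)) (l : List (B → ℕ)) : Jof D s l ∈ codeS D s := by
  rw [codeS, ZFSet.mem_range]
  exact ⟨l, rfl⟩

/-- isomorphic situations -/
structure Iv (b : B) (y : Ordinal.{0} → ℕ → ℕ) (s : List (B → ℕ) → (B → ℕ))
    (y' : Ordinal.{0} → ℕ → ℕ) (s' : List (B → ℕ) → (B → ℕ)) (δ : Ordinal.{0})
    (f g : Ordinal.{0} → Ordinal.{0}) : Prop where
  iso : OIso (aw D y s b) (aw D y' s' b) f g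
  t1 : Trace (aw D y s b) δ
  t2 : Trace (aw D y' s' b) δ
  hω : ω < δ
  eY : (tm (hat (codeY D y))).map f = tm (hat (codeY D y'))
  eS : (tm (codeS D s)).map f = tm (codeS D s')

variable {D}
variable {b : B} {y : Ordinal.{0} → ℕ → ℕ} {s : List (B → ℕ) → (B → ℕ)}
    {y' : Ordinal.{0} → ℕ → ℕ} {s' : List (B → ℕ) → (B → ℕ)} {δ : Ordinal.{0}}
    {f g : Ordinal.{0} → Ordinal.{0}}

namespace Iv

theorem symm (hVL : VeqL) (H : Iv D b y s y' s' δ f g) : Iv D b y' s' y s δ g f where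
  iso := H.iso.symm
  t1 := H.t2
  t2 := H.t1
  hω := H.hω
  eY := by rw [← H.eY, H.iso.map_map (inT_Y D y s hVL b)]
  eS := by rw [← H.eS, H.iso.map_map (inT_S D y s hVL b)]

theorem xi (H : Iv D b y s y' s' δ f g) : XInv D.X (aw D y s b) f :=
  xinv D.xh H.iso (aw_cl D y s b) (aw_cl D y' s' b) H.t1 H.t2 H.hω

theorem bc1 (_H : Iv D b y s y' s' δ f g) : BC (aw D y s b) := bc_of_cl (aw_cl D y s b)
theorem bc2 (_H : Iv D b y s y' s' δ f g) : BC (aw D y' s' b) := bc_of_cl (aw_cl D y' s' b)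

/-- statement (I) -/
def I1 (_H : Iv D b y s y' s' δ f g) (k : ℕ) : Prop :=
  ∀ i < k, ∀ b', D.β b' < δ → mv D y s (hist D y s i) b' = mv D y' s' (hist D y' s' i) b'

/-- statement (II) -/
def I2 (_H : Iv D b y s y' s' δ f g) (k : ℕ) : Prop :=
  (tm (Jof D s (hist D y s k))).map f = tm (Jof D s' (hist D y' s' k))

theorem I2.symm {H : Iv D b y s y' s' δ f g} (hVL : VeqL) {k : ℕ} (h : H.I2 k) : (H.symm hVL).I2 k := by
  unfold I2 at h ⊢
  rw [← h, H.iso.map_map (inT_J D y s hVL b k)]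

theorem i2_of_i1 (hVL : VeqL) (H : Iv D b y s y' s' δ f g) {k : ℕ} (h : H.I1 k) : H.I2 k := by
  set J := Jof D s (hist D y s k) with hJ
  set J' := Jof D s' (hist D y' s' k) with hJ'
  have hJt : InT (aw D y s b) (tm J) := inT_J D y s hVL b k
  have hJt' : InT (aw D y' s' b) (tm J') := inT_J D y' s' hVL b k
  refine tm_map hVL H.iso (aw_cl D y s b) (aw_cl D y' s' b) H.xi hJt ?_
  have hmem : ((tm J).map f).den ∈ codeS D s' := by
    have h1 : (tm J).den ∈ (tm (codeS D s)).den := by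
      rw [(tm_spec hVL _).2, (tm_spec hVL _).2]
      exact codeS_mem D s _
    have h2 := (iso_mem H.iso H.bc1 H.bc2 hJt (inT_S D y s hVL b)).1 h1
    rwa [H.eS, (tm_spec hVL _).2] at h2
  rw [codeS, ZFSet.mem_range] at hmem
  obtain ⟨l', hl'⟩ := hmem
  have hmt : InT (aw D y' s' b) ((tm J).map f) := H.iso.inT hJt
  have hdiff := cl_diff (aw_cl D y' s' b) hmt hJt'
  set S : Set Ordinal.{0} := {γ | γ < ω₁ ∧ γ ∈ D.C ∧ ¬ (Lz γ ∈ ((tm J).map f).den ↔ Lz γ ∈ (tm J').den)}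
    with hS
  have hSe : ¬ S.Nonempty := by
    intro hne
    have h3 : sInf S ∈ S := csInf_mem hne
    have h4 : sInf S < δ := (H.t2.2 _ h3.1).1 hdiff
    obtain ⟨h5, ⟨α, hα, t, n, h6⟩, h7⟩ := h3
    apply h7
    have h8 : D.dec (sInf S) ∈ aw D y' s' b := D.cl_dec (aw_cl D y' s' b) hdiff h5
    rw [h6, D.dec_pos α hα] at h8
    have h9 : α < δ := (H.t2.2 _ hα).1 h8
    rw [← lz_iff H.iso H.bc1 H.bc2 H.t1 H.t2 hJt h4, (tm_spec hVL _).2, (tm_spec hVL _).2, hJ, hJ',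
      Jof, Jof, lz_mem_hat h5, lz_mem_hat h5, h6, pos_mem_codeL' D hα, pos_mem_codeL' D hα]
    simp only [List.getElem?_cons_succ]
    constructor
    · rintro ⟨b', hb', hx⟩
      refine ⟨b', hb', ?_⟩
      rw [hist_get] at hx ⊢
      rw [← h t hx.1 b' (by rw [hb']; exact h9)]
      exact hx
    · rintro ⟨b', hb', hx⟩
      refine ⟨b', hb', ?_⟩
      rw [hist_get] at hx ⊢
      rw [h t hx.1 b' (by rw [hb']; exact h9)]
      exact hx
  have hagree : ∀ (b' : B) (t n : ℕ), (∃ c, l'[t]? = some c ∧ c b' = n) ↔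
      (∃ c, (hist D y' s' k)[t]? = some c ∧ c b' = n) := by
    intro b' t n
    set γ := D.pos (D.β b') (Nat.pair (t + 1) n) with hγ
    have hγ1 : γ < ω₁ := D.pos_lt _ (D.β_lt b') _
    have hγC : γ ∈ D.C := ⟨D.β b', D.β_lt b', t, n, rfl⟩
    have h1 : Lz γ ∈ ((tm J).map f).den ↔ Lz γ ∈ (tm J').den := by
      by_contra hc
      exact hSe ⟨γ, hγ1, hγC, hc⟩
    rw [← hl', (tm_spec hVL _).2, hJ', Jof, lz_mem_hat hγ1, lz_mem_hat hγ1, hγ, pos_mem_codeL,
      pos_mem_codeL] at h1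
    simpa only [List.getElem?_cons_succ] using h1
  have hll : l' = hist D y' s' k := by
    apply List.ext_getElem?
    intro t
    rcases hc1 : l'[t]? with _ | c
    · rcases hc2 : (hist D y' s' k)[t]? with _ | c'
      · rfl
      · have := (hagree b t (c' b)).2 ⟨c', hc2, rfl⟩
        rw [hc1] at this
        simp at this
    · rcases hc2 : (hist D y' s' k)[t]? with _ | c'
      · have := (hagree b t (c b)).1 ⟨c, hc1, rfl⟩
        rw [hc2] at this
        simp at this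
      · congr 1
        funext b'
        obtain ⟨c'', h1, h2⟩ := (hagree b' t (c b')).1 ⟨c, hc1, rfl⟩
        rw [hc2, Option.some.injEq] at h1
        rw [h1, h2]
  rw [← hl', hll]
  rfl

theorem y_eq (hVL : VeqL) (H : Iv D b y s y' s' δ f g) {ξ : Ordinal.{0}} (hξ : ξ < δ) (n : ℕ) :
    y' ξ n = y ξ n := by
  have hξ1 : ξ < ω₁ := hξ.trans H.t1.1
  set γ := D.pos ξ (Nat.pair n (y ξ n)) with hγ
  have hγ1 : γ < ω₁ := D.pos_lt _ hξ1 _
  have h1 : γ ∈ aw D y s b := D.cl_pos (aw_cl D y s b) ((H.t1.2 _ hξ1).2 hξ) hξ1 _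
  have h2 : γ < δ := (H.t1.2 _ hγ1).1 h1
  have h3 := lz_iff H.iso H.bc1 H.bc2 H.t1 H.t2 (inT_Y D y s hVL b) h2
  rw [H.eY, (tm_spec hVL _).2, (tm_spec hVL _).2, lz_mem_hat hγ1, lz_mem_hat hγ1, hγ,
    pos_mem_codeY D hξ1, pos_mem_codeY D hξ1] at h3
  exact h3.1 rfl

theorem image_glab (H : Iv D b y s y' s' δ f g) {j : ℕ}
    (h2 : ∀ i ≤ j, H.I2 i) {b' : B} (hb' : D.β b' < δ) :
    f '' ({D.β b'} ∪ Glab D y s (hist D y s j)) = {D.β b'} ∪ Glab D y' s' (hist D y' s' j) := by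
  rw [Glab_hist, Glab_hist, Set.image_union, Set.image_union, Set.image_union, Set.image_singleton,
    ← Tr.labset_map, ← Tr.labset_map, H.eY, H.eS, Trace.fix H.iso H.t1 H.t2 _ hb']
  congr 2
  ext γ
  constructor
  · rintro ⟨γ', ⟨i, hi, h3⟩, rfl⟩
    refine ⟨i, hi, ?_⟩
    rw [← h2 i hi, Tr.labset_map]
    exact ⟨γ', h3, rfl⟩
  · rintro ⟨i, hi, h3⟩
    rw [← h2 i hi, Tr.labset_map] at h3
    obtain ⟨γ', h4, rfl⟩ := h3
    exact ⟨γ', ⟨i, hi, h4⟩, rfl⟩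

theorem sub_aw (D : Data B) (y : Ordinal.{0} → ℕ → ℕ) (s : List (B → ℕ) → (B → ℕ)) {δ : Ordinal.{0}}
    {b : B} (ht : Trace (aw D y s b) δ) (j : ℕ) {b' : B} (hb' : D.β b' < δ) :
    {D.β b'} ∪ Glab D y s (hist D y s j) ⊆ aw D y s b := by
  apply Set.union_subset
  · rw [Set.singleton_subset_iff]
    exact (ht.2 _ (D.β_lt b')).2 hb'
  · exact Glab_sub_aw D y s b j

theorem ak_imp (H : Iv D b y s y' s' δ f g) {j : ℕ}
    (h2 : ∀ i ≤ j, H.I2 i) {b' : B} (hb' : D.β b' < δ) {γ : Ordinal.{0}} (hγ : γ < δ)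
    (h : γ ∈ ak D y s b' j) : γ ∈ ak D y' s' b' j := by
  have h3 := hull_map H.iso (aw_cl D y s b) (aw_cl D y' s' b) H.xi (sub_aw D y s H.t1 j hb') h
  rw [H.image_glab h2 hb', Trace.fix H.iso H.t1 H.t2 _ hγ] at h3
  exact h3

theorem ak_trace (D : Data B) (y : Ordinal.{0} → ℕ → ℕ) (s : List (B → ℕ) → (B → ℕ)) (b : B) (j : ℕ) :
    ∃ δ, Trace (ak D y s b j) δ ∧ ω < δ :=
  cl_trace D.xh (ak_cl D y s b j) (ak_countable D y s b j)

theorem ak_trace_le (D : Data B) (y : Ordinal.{0} → ℕ → ℕ) (s : List (B → ℕ) → (B → ℕ)) {δ δ' : Ordinal.{0}}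
    {b b' : B} (ht : Trace (aw D y s b) δ) {j : ℕ} (hb' : D.β b' < δ) (ht' : Trace (ak D y s b' j) δ') :
    δ' ≤ δ := by
  by_contra hc
  rw [not_le] at hc
  have h1 : δ ∈ ak D y s b' j := (ht'.2 _ ht.1).2 hc
  have h2 : δ ∈ aw D y s b := hull_min (aw_cl D y s b) (sub_aw D y s ht j hb') h1
  exact absurd ((ht.2 _ ht.1).1 h2) (lt_irrefl _)

theorem trc_eq (hVL : VeqL) (H : Iv D b y s y' s' δ f g) {j : ℕ}
    (h2 : ∀ i ≤ j, H.I2 i) {b' : B} (hb' : D.β b' < δ) :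
    ∃ δ' ≤ δ, Trace (ak D y s b' j) δ' ∧ Trace (ak D y' s' b' j) δ' ∧ ω < δ' := by
  obtain ⟨δ1, h3, h4⟩ := ak_trace D y s b' j
  obtain ⟨δ2, h5, h6⟩ := ak_trace D y' s' b' j
  have h7 := ak_trace_le D y s H.t1 hb' h3
  have h8 := ak_trace_le D y' s' H.t2 hb' h5
  have h9 : δ1 = δ2 := by
    rcases lt_trichotomy δ1 δ2 with h | h | h
    · exfalso
      have e1 := (h5.2 δ1 h3.1).2 h
      have e2 := (H.symm hVL).ak_imp (fun i hi => (h2 i hi).symm hVL) hb' (h.trans_le h8) e1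
      exact absurd ((h3.2 _ h3.1).1 e2) (lt_irrefl _)
    · exact h
    · exfalso
      have e1 := (h3.2 δ2 h5.1).2 h
      have e2 := H.ak_imp h2 hb' (h.trans_le h7) e1
      exact absurd ((h5.2 _ h5.1).1 e2) (lt_irrefl _)
  subst h9
  exact ⟨δ1, h7, h3, h5, h4⟩

theorem i1_all (hVL : VeqL) (H : Iv D b y s y' s' δ f g) : ∀ k, H.I1 k := by
  intro k
  induction k with
  | zero => intro i hi; omega
  | succ k ih =>
    intro i hi b' hb'
    rcases Nat.lt_or_ge i k with h | h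
    · exact ih i h b' hb'
    · have : i = k := by omega
      subst this
      have h2 : ∀ j ≤ i, H.I2 j := fun j hj => H.i2_of_i1 hVL (fun i' hi' => ih i' (by omega))
      obtain ⟨δ', h3, h4, h5, h6⟩ := H.trc_eq hVL (j := (Nat.unpair i).1)
        (fun j hj => h2 j (hj.trans (Nat.unpair_left_le i))) hb'
      rw [mv_hist, mv_hist, h4.trc, h5.trc]
      have h7 : D.e δ' (Nat.unpair i).2 < δ := by
        refine lt_of_lt_of_le (D.e_lt δ' ?_ h4.1 _) h3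
        exact (Ordinal.omega0_pos).trans h6
      rw [H.y_eq hVL h7]

theorem i2_all (hVL : VeqL) (H : Iv D b y s y' s' δ f g) (k : ℕ) : H.I2 k :=
  H.i2_of_i1 hVL (H.i1_all hVL k)

/-- **Invariance** of the play. -/
theorem xr_eq (hVL : VeqL) (H : Iv D b y s y' s' δ f g) : xr D y s b = xr D y' s' b := by
  funext n
  have hb1 := D.β_lt b
  have hb2 := β_mem_aw D y s b
  set m := xr D y s b n with hm
  set γ := D.pos (D.β b) (Nat.pair 0 m) with hγ
  have hγ1 : γ < ω₁ := D.pos_lt _ hb1 _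
  have h1 : γ ∈ aw D y s b := D.cl_pos (aw_cl D y s b) hb2 hb1 _
  have h2 : γ < δ := (H.t1.2 _ hγ1).1 h1
  have h3 := lz_iff H.iso H.bc1 H.bc2 H.t1 H.t2 (inT_J D y s hVL b n) h2
  rw [H.i2_all hVL n, (tm_spec hVL _).2, (tm_spec hVL _).2, Jof, Jof, lz_mem_hat hγ1, lz_mem_hat hγ1, hγ,
    pos_mem_codeL, pos_mem_codeL] at h3
  simp only [List.getElem?_cons_zero, Option.some.injEq, exists_eq_left'] at h3
  exact (h3.1 rfl).symm

end Iv

end Pool.H46VL
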