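import Mathlib
import Pool.Agent.H46.VL.Inv

set_option autoImplicit false

namespace Pool.H46VL

open Ordinal Cardinal

variable {B : Type} (D : Data B)

/-- plays arising from situations with trace `δ` -/
def Rl (δ : Ordinal.{0}) : Set (ℕ → ℕ) :=
  {x | ∃ (y : Ordinal.{0} → ℕ → ℕ) (s : List (B → ℕ) → (B → ℕ)) (b : B),
    Trace (aw D y s b) δ ∧ x = xr D y s b}

theorem Tr.map_comp (t : Tr) (f g : Ordinal.{0} → Ordinal.{0}) : (t.map f).map g = t.map (fun x => g (f x)) := by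
  simp only [Tr.map, Fo.map_map]

/-- the code of a play -/
def Cod (δ : Ordinal.{0}) (x : ℕ → ℕ) (c : Ordinal.{0} × (Ordinal.{0} × Fml × Fo Ordinal.{0}) ×
    (Ordinal.{0} × Fml × Fo Ordinal.{0}) × Ordinal.{0}) : Prop :=
  ∃ (y : Ordinal.{0} → ℕ → ℕ) (s : List (B → ℕ) → (B → ℕ)) (b : B) (η : Ordinal.{0})
    (f g : Ordinal.{0} → Ordinal.{0}),
    Trace (aw D y s b) δ ∧ x = xr D y s b ∧ OIso (aw D y s b) (Set.Iio η) f g ∧ ω < δ ∧ c.1 = η ∧
    (tm (hat (codeY D y))).map f = ⟨c.2.1.1, c.2.1.2.1, c.2.1.2.2⟩ ∧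
    (tm (codeS D s)).map f = ⟨c.2.2.1.1, c.2.2.1.2.1, c.2.2.1.2.2⟩ ∧ D.β b = c.2.2.2

theorem Cod.unique (hVL : VeqL) {δ : Ordinal.{0}} {x x' : ℕ → ℕ} {c : Ordinal.{0} × (Ordinal.{0} × Fml × Fo Ordinal.{0}) ×
    (Ordinal.{0} × Fml × Fo Ordinal.{0}) × Ordinal.{0}} (h : Cod D δ x c) (h' : Cod D δ x' c) : x = x' := by
  obtain ⟨y, s, b, η, f, g, h1, h2, h3, h4, h5, h6, h7, h8⟩ := h
  obtain ⟨y', s', b', η', f', g', h1', h2', h3', h4', h5', h6', h7', h8'⟩ := h'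
  have hb : b = b' := D.β_inj (h8.trans h8'.symm)
  subst hb
  have hη : η = η' := h5.symm.trans h5'
  subst hη
  rw [h2, h2']
  refine Iv.xr_eq hVL (δ := δ) (f := fun x => g' (f x)) (g := fun x => g (f' x)) ?_
  refine ⟨h3.trans h3'.symm, h1, h1', h4, ?_, ?_⟩
  · rw [← Tr.map_comp, h6, ← h6', h3'.map_map (inT_Y D y' s' hVL b)]
  · rw [← Tr.map_comp, h7, ← h7', h3'.map_map (inT_S D y' s' hVL b)]

theorem Rl_countable (hVL : VeqL) {δ : Ordinal.{0}} (hδ : δ < ω₁) : (Rl D δ).Countable := by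
  obtain ⟨x₀, hx₀, hδx⟩ := exists_big_real D.idx_inj hδ
  obtain ⟨ρ, hρ, hxρ⟩ := real_in_L hVL hx₀
  have hρc := countable_Iio_iff.2 hρ
  set T : Set (Ordinal.{0} × Fml × Fo Ordinal.{0}) :=
    (Set.Iio ρ) ×ˢ ((Set.univ : Set Fml) ×ˢ {F : Fo Ordinal.{0} | F.All (· ∈ Set.Iio ρ)}) with hT
  have hTc : T.Countable := hρc.prod (Set.countable_univ.prod (Fo.countable_all hρc))
  set Cs := (Set.Iio ρ) ×ˢ (T ×ˢ (T ×ˢ (Set.Iio δ))) with hCs
  have hCsc : Cs.Countable := hρc.prod (hTc.prod (hTc.prod (countable_Iio_iff.2 hδ)))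
  have hex : ∀ x : Rl D δ, ∃ c ∈ Cs, Cod D δ x.1 c := by
    rintro ⟨x, y, s, b, h1, h2⟩
    obtain ⟨δ', h3, h4⟩ := cl_trace D.xh (aw_cl D y s b) (aw_countable D y s b)
    have h5 : δ = δ' := h1.unique h3
    subst h5
    obtain ⟨η, hη, g, hiso⟩ := exists_collapse (aw_countable D y s b)
    have h6 : η < ρ := otp_bound D.xh hiso (aw_cl D y s b) h1 h4 hx₀ hδx hxρ
    have h7 := hiso.inT (inT_Y D y s hVL b)
    have h8 := hiso.inT (inT_S D y s hVL b)
    have h9 : ∀ t : Tr, InT (Set.Iio η) t → (t.lab, t.fml, t.ch) ∈ T := by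
      intro t ht
      refine ⟨?_, Set.mem_univ _, ?_⟩
      · exact lt_trans ht.lab h6
      · exact ht.2.2.mono fun z hz => lt_trans hz h6
    refine ⟨(η, (((tm (hat (codeY D y))).map (col (aw D y s b))).lab, ((tm (hat (codeY D y))).map (col (aw D y s b))).fml,
      ((tm (hat (codeY D y))).map (col (aw D y s b))).ch),
      (((tm (codeS D s)).map (col (aw D y s b))).lab, ((tm (codeS D s)).map (col (aw D y s b))).fml,
      ((tm (codeS D s)).map (col (aw D y s b))).ch), D.β b), ⟨h6, h9 _ h7, h9 _ h8, ?_⟩, ?_⟩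
    · exact (h1.2 _ (D.β_lt b)).1 (β_mem_aw D y s b)
    · exact ⟨y, s, b, η, _, g, h1, h2, hiso, h4, rfl, rfl, rfl, rfl⟩
  choose c hc1 hc2 using hex
  have hinj : Function.Injective (fun x : Rl D δ => (⟨c x, hc1 x⟩ : Cs)) := by
    intro x x' hxx
    have : c x = c x' := congrArg Subtype.val hxx
    apply Subtype.ext
    refine Cod.unique D hVL (hc2 x) ?_
    rw [this]
    exact hc2 x'
  haveI := hCsc.to_subtype
  exact Set.countable_coe_iff.1 hinj.countable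

/-- existence of the data -/
theorem exists_data (hVL : VeqL) (hB : #B ≤ Cardinal.aleph.{0} 1) : Nonempty (Data B) := by
  classical
  obtain ⟨idx, hidx1, hidx2⟩ := exists_idx hVL
  -- β
  have hβ : Nonempty (B ↪ Set.Iio (ω₁ : Ordinal.{0})) := by
    have h1 : Cardinal.lift.{1} #B ≤ Cardinal.lift.{0} #(Set.Iio (ω₁ : Ordinal.{0})) := by
      rw [mk_Iio_omega_one, Cardinal.lift_id']
      have := Cardinal.lift_le.{1}.2 hB
      rwa [Cardinal.lift_aleph, Ordinal.lift_one] at this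
    exact Cardinal.lift_mk_le'.1 h1
  obtain ⟨β⟩ := hβ
  -- pos
  have hp : Nonempty ((Set.Iio (ω₁ : Ordinal.{0}) × ℕ) ↪ Set.Iio (ω₁ : Ordinal.{0})) := by
    have h1 : #(Set.Iio (ω₁ : Ordinal.{0}) × ℕ) ≤ #(Set.Iio (ω₁ : Ordinal.{0})) := by
      rw [Cardinal.mk_prod, mk_Iio_omega_one]
      simp only [Cardinal.lift_aleph, Cardinal.mk_nat, Cardinal.lift_aleph0]
      rw [Cardinal.mul_eq_left (Cardinal.aleph0_le_aleph _) (Cardinal.aleph0_le_aleph _) Cardinal.aleph0_ne_zero]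
      simp
    exact h1
  obtain ⟨p⟩ := hp
  -- e
  have he : ∀ α : Ordinal.{0}, ∃ f : ℕ → Ordinal.{0}, (0 < α → α < ω₁ → ∀ i, f i < α) ∧
      (α < ω₁ → ∀ γ < α, ∃ i, f i = γ) ∧ (α = 0 → ∀ i, f i = 0) := by
    intro α
    by_cases h : 0 < α ∧ α < ω₁
    · obtain ⟨f, hf⟩ := (countable_Iio_iff.2 h.2).exists_eq_range ⟨0, h.1⟩
      refine ⟨f, fun _ _ i => ?_, fun _ γ hγ => ?_, fun h0 => absurd h0 h.1.ne'⟩
      · have : f i ∈ Set.Iio α := by rw [hf]; exact ⟨i, rfl⟩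
        exact this
      · have : γ ∈ Set.Iio α := hγ
        rw [hf] at this
        exact this
    · refine ⟨fun _ => 0, fun h1 h2 => absurd ⟨h1, h2⟩ h, fun h2 γ hγ => ?_, fun _ _ => rfl⟩
      exfalso
      exact h ⟨lt_of_le_of_lt bot_le hγ, h2⟩
  choose e he1 he2 he3 using he
  set pos : Ordinal.{0} → ℕ → Ordinal.{0} := fun α m => if h : α < ω₁ then (p (⟨α, h⟩, m)).1 else 0 with hpos
  have hpos_inj : ∀ α < (ω₁ : Ordinal.{0}), ∀ α' < (ω₁ : Ordinal.{0}), ∀ m m', pos α m = pos α' m' → α = α' ∧ m = m' := by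
    intro α hα α' hα' m m' h
    simp only [hpos, dif_pos hα, dif_pos hα'] at h
    have h2 := p.injective (Subtype.ext h)
    rw [Prod.mk.injEq] at h2
    exact ⟨congrArg Subtype.val h2.1, h2.2⟩
  refine ⟨{
    β := fun b => (β b).1
    β_lt := fun b => (β b).2
    β_inj := fun b b' h => β.injective (Subtype.ext h)
    idx := idx
    idx_lt := hidx1
    idx_inj := hidx2
    e := e
    e_lt := fun α h1 h2 i => he1 α h1 h2 i
    e_zero := fun i => he3 0 rfl i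
    e_surj := fun α h1 γ hγ => he2 α h1 γ hγ
    pos := pos
    pos_lt := ?_
    pos_inj := hpos_inj
    dec := fun γ => if h : ∃ α < (ω₁ : Ordinal.{0}), ∃ m, pos α m = γ then h.choose else 0
    dec_lt := ?_
    dec_pos := ?_ }⟩
  · intro α hα m
    simp only [hpos, dif_pos hα]
    exact (p (⟨α, hα⟩, m)).2
  · intro γ
    split_ifs with h
    · exact h.choose_spec.1
    · exact Ordinal.omega_pos 1
  · intro α hα m
    have hex : ∃ α' < (ω₁ : Ordinal.{0}), ∃ m', pos α' m' = pos α m := ⟨α, hα, m, rfl⟩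
    simp only [dif_pos hex]
    obtain ⟨m', hm'⟩ := hex.choose_spec.2
    exact (hpos_inj _ hex.choose_spec.1 _ hα _ _ hm').1

end Pool.H46VL
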