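import Mathlib
import Pool.Agent.H46.VL.Rl
import Pool.Agent.H46.VL.GDefs

set_option autoImplicit false

namespace Pool.H46VL

open Ordinal Cardinal

theorem not_countable_baire : ¬ (Set.univ : Set (ℕ → ℕ)).Countable := by
  rw [Set.countable_univ_iff, ← Cardinal.mk_le_aleph0_iff]
  have : #(ℕ → ℕ) = Cardinal.continuum := by simp
  rw [this, not_le]
  exact Cardinal.aleph0_lt_continuum

theorem mk_strat : #(List ℕ → ℕ) = Cardinal.continuum := by
  have : #(List ℕ) = ℵ₀ := Cardinal.mk_eq_aleph0 _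
  rw [← Cardinal.power_def, this]
  simp

/-- an enumeration of the strategies of TWO in the one-board game -/
theorem exists_enum (hCH : Cardinal.continuum.{0} = Cardinal.aleph.{0} 1) :
    ∃ τ : Ordinal.{0} → (List ℕ → ℕ), ∀ t, ∃ ξ < (ω₁ : Ordinal.{0}), τ ξ = t := by
  have h1 : Cardinal.lift.{1} #(List ℕ → ℕ) ≤ Cardinal.lift.{0} #(Set.Iio (ω₁ : Ordinal.{0})) := by
    rw [mk_Iio_omega_one, Cardinal.lift_id', mk_strat, hCH, Cardinal.lift_aleph, Ordinal.lift_one]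
  obtain ⟨i⟩ := Cardinal.lift_mk_le'.1 h1
  classical
  refine ⟨fun ξ => if h : ∃ t, (i t).1 = ξ then h.choose else fun _ => 0, fun t => ⟨(i t).1, (i t).2, ?_⟩⟩
  have hex : ∃ t', (i t').1 = (i t).1 := ⟨t, rfl⟩
  simp only [dif_pos hex]
  exact i.injective (Subtype.ext hex.choose_spec)

theorem main_VL (hVL : VeqL) (B₀ : Type) (hB : #B₀ ≤ Cardinal.aleph.{0} 1) :
    ∃ A : Set (ℕ → ℕ), ¬ OneWins B₀ A ∧ ∀ B : Type, Nonempty B → ¬ TwoWins B A := by
  obtain ⟨D⟩ := exists_data (B := B₀) hVL hB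
  obtain ⟨τ, hτ⟩ := exists_enum (ch_of_VeqL hVL)
  have hx : ∀ ξ : Ordinal.{0}, ξ < ω₁ → ∃ x : ℕ → ℕ, ∀ δ ≤ ξ, x ∉ Rl D δ := by
    intro ξ hξ
    by_contra hc
    push Not at hc
    apply not_countable_baire
    have h1 : (Set.Iio (ξ + 1)).Countable := countable_Iio_iff.2 (add_one_lt_omega_one hξ)
    have h2 : (⋃ δ ∈ Set.Iio (ξ + 1), Rl D δ).Countable := by
      apply h1.biUnion
      intro δ hδ
      exact Rl_countable D hVL (lt_of_le_of_lt (Order.lt_add_one_iff.1 hδ) hξ)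
    apply h2.mono
    intro x _
    obtain ⟨δ, h3, h4⟩ := hc x
    exact Set.mem_biUnion (Order.lt_add_one_iff.2 h3) h4
  choose! x hx using hx
  set y : Ordinal.{0} → ℕ → ℕ := fun ξ n => τ ξ ((List.range (n + 1)).map (x ξ)) with hy
  refine ⟨{z | ∃ ξ < (ω₁ : Ordinal.{0}), z = weave (x ξ) (y ξ)}, ?_, ?_⟩
  · rintro ⟨s, hs⟩
    obtain ⟨b, ξ, hξ, hb⟩ := hs (fun n => mv D y s (hist D y s n))
    obtain ⟨h1, h2⟩ := weave_inj hb
    have h1' : xr D y s b = x ξ := by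
      rw [← h1]
      funext n
      rw [xr, hist_eq]
    obtain ⟨δ, hδ, hω⟩ := cl_trace D.xh (aw_cl D y s b) (aw_countable D y s b)
    rcases lt_or_ge ξ δ with h3 | h3
    · have h4 : ξ ∈ aw D y s b := (hδ.2 ξ hξ).2 h3
      obtain ⟨k, hk⟩ := Set.mem_iUnion.1 h4
      obtain ⟨δ', h5, h6⟩ := Iv.ak_trace D y s b k
      have h7 : ξ < δ' := (h5.2 ξ hξ).1 hk
      obtain ⟨i, hi⟩ := D.e_surj δ' h5.1 ξ h7
      have h8 := congrFun h2 (Nat.pair k i)
      simp only [mv_hist, Nat.unpair_pair, h5.trc, hi] at h8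
      omega
    · apply hx ξ hξ δ h3
      exact ⟨y, s, b, hδ, h1'.symm⟩
  · rintro B ⟨b⟩ ⟨t, ht⟩
    obtain ⟨ξ, hξ, hξt⟩ := hτ (fun l => t (l.map (fun n => fun _ => n)) b)
    apply ht (fun n _ => x ξ n) b
    refine ⟨ξ, hξ, ?_⟩
    congr 1
    funext n
    simp only [hy, hξt, List.map_map]
    rfl

theorem main_VL' (hVL : VeqL) : ∃ A : Set (ℕ → ℕ), ∀ B : Type, Nonempty B → #B ≤ Cardinal.continuum →
    Undetermined B A := by
  have hCH := ch_of_VeqL hVL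
  have h0 : #(ℕ → ℕ) = Cardinal.continuum := by simp
  obtain ⟨A, h1, h2⟩ := main_VL hVL (ℕ → ℕ) (by rw [h0, hCH])
  refine ⟨A, fun B hB hc => ⟨fun h => h1 ?_, h2 B hB⟩⟩
  rw [← h0] at hc
  obtain ⟨i⟩ := hc
  exact OneWins.mono i i.injective h

end Pool.H46VL
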