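import Mathlib
import Pool.Agent.H46.VL.GDefs

set_option autoImplicit false

namespace Pool.H46VL

open Ordinal Cardinal

theorem mk_strat' : #(List ℕ → ℕ) = Cardinal.continuum := by
  have : #(List ℕ) = ℵ₀ := Cardinal.mk_eq_aleph0 _
  rw [← Cardinal.power_def, this]
  simp

theorem no_inj {ξ : Ordinal.{0}} (hξ : ξ < (Cardinal.continuum.{0}).ord) (h : (ℕ → ℕ) → Ordinal.{0})
    (hlt : ∀ x, h x < ξ) (hinj : Function.Injective h) : False := by
  have h1 : Cardinal.lift.{1} #(ℕ → ℕ) ≤ Cardinal.lift.{0} #(Set.Iio ξ) :=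
    Cardinal.lift_mk_le'.2 ⟨⟨fun x => ⟨h x, hlt x⟩, fun x y hxy => hinj (congrArg Subtype.val hxy)⟩⟩
  rw [Cardinal.mk_Iio_ordinal, Cardinal.lift_lift, Cardinal.lift_le] at h1
  have h2 : #(ℕ → ℕ) = Cardinal.continuum := by simp
  rw [h2] at h1
  exact absurd (Cardinal.lt_ord.1 hξ) (not_lt.2 h1)

/-- an enumeration of the strategies of the one-board game -/
theorem exists_enum_c :
    ∃ τ : Ordinal.{0} → (List ℕ → ℕ), ∀ t, ∃ ξ < (Cardinal.continuum.{0}).ord, τ ξ = t := by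
  have h1 : Cardinal.lift.{1} #(List ℕ → ℕ) ≤ Cardinal.lift.{0} #(Set.Iio (Cardinal.continuum.{0}).ord) := by
    rw [Cardinal.mk_Iio_ordinal, Cardinal.lift_lift, Cardinal.lift_le, Cardinal.card_ord, mk_strat']
  obtain ⟨i⟩ := Cardinal.lift_mk_le'.1 h1
  classical
  refine ⟨fun ξ => if h : ∃ t, (i t).1 = ξ then h.choose else fun _ => 0, fun t => ⟨(i t).1, (i t).2, ?_⟩⟩
  have hex : ∃ t', (i t').1 = (i t).1 := ⟨t, rfl⟩
  simp only [dif_pos hex]
  exact i.injective (Subtype.ext hex.choose_spec)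

/-- the answer of TWO's strategy `τ` to `x` -/
def ans (τ : List ℕ → ℕ) (x : ℕ → ℕ) (n : ℕ) : ℕ := τ ((List.range (n + 1)).map x)

/-- `x` is the play of ONE's strategy `σ` against TWO's strategy `τ` -/
def IsRun (σ τ : List ℕ → ℕ) (x : ℕ → ℕ) : Prop := ∀ n, x n = σ ((List.range n).map (ans τ x))

theorem IsRun.unique {σ τ : List ℕ → ℕ} {x x' : ℕ → ℕ} (h : IsRun σ τ x) (h' : IsRun σ τ x') : x = x' := by
  funext n
  induction n using Nat.strong_induction_on with
  | _ n ih =>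
    rw [h n, h' n]
    congr 1
    apply List.map_congr_left
    intro m hm
    rw [List.mem_range] at hm
    unfold ans
    congr 1
    apply List.map_congr_left
    intro k hk
    rw [List.mem_range] at hk
    exact ih k (by omega)

theorem main_ZFC : ∃ A : Set (ℕ → ℕ), ∀ B : Type, Nonempty B → #B < (Cardinal.continuum.{0}).ord.cof →
    Undetermined B A := by
  obtain ⟨τ, hτ⟩ := exists_enum_c
  have hx : ∀ ξ : Ordinal.{0}, ξ < (Cardinal.continuum.{0}).ord → ∃ x : ℕ → ℕ, ∀ η < ξ, ¬ IsRun (τ η) (τ ξ) x := by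
    intro ξ hξ
    by_contra hc
    push Not at hc
    choose h h1 h2 using hc
    refine no_inj hξ h h1 ?_
    intro x x' hxx
    refine IsRun.unique (h2 x) ?_
    rw [hxx]
    exact h2 x'
  choose! x hx using hx
  refine ⟨{z | ∃ ξ < (Cardinal.continuum.{0}).ord, z = weave (x ξ) (ans (τ ξ) (x ξ))}, ?_⟩
  rintro B ⟨b₀⟩ hB
  constructor
  · rintro ⟨s, hs⟩
    choose η hη1 hη2 using fun b : B => hτ (fun l => s (l.map (fun n => fun _ => n)) b)
    set ζ : Ordinal.{0} := ⨆ b, η b with hζ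
    have hζ1 : ζ < (Cardinal.continuum.{0}).ord := Ordinal.iSup_lt_of_lt_cof hB hη1
    have hζ2 : ∀ b, η b ≤ ζ := fun b => le_ciSup Ordinal.bddAbove_of_small b
    have hr : ∀ r : ℕ → ℕ, ∃ ξ, ξ < ζ + 1 ∧ r = ans (τ ξ) (x ξ) := by
      intro r
      obtain ⟨b, ξ, hξ, hb⟩ := hs (fun n _ => r n)
      obtain ⟨h1, h2⟩ := weave_inj hb
      refine ⟨ξ, ?_, h2⟩
      rw [Order.lt_add_one_iff]
      refine le_trans ?_ (hζ2 b)
      by_contra hc
      rw [not_le] at hc
      apply hx ξ hξ (η b) hc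
      intro n
      rw [hη2 b, ← h2, ← congrFun h1 n]
      simp only [List.map_map]
      rfl
    choose h h1 h2 using hr
    refine no_inj (ξ := ζ + 1) ?_ h h1 ?_
    · exact (Cardinal.isSuccLimit_ord Cardinal.aleph0_le_continuum).add_one_lt hζ1
    · intro r r' hrr
      rw [h2 r, h2 r', hrr]
  · rintro ⟨t, ht⟩
    obtain ⟨ξ, hξ, hξt⟩ := hτ (fun l => t (l.map (fun n => fun _ => n)) b₀)
    apply ht (fun n _ => x ξ n) b₀
    refine ⟨ξ, hξ, ?_⟩
    congr 1
    funext n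
    simp only [ans, hξt, List.map_map]
    rfl

end Pool.H46VL
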